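import Pool.Agent.V7H46.SL3.NotIn

/-!
# Checks of the definitions
-/

set_option autoImplicit false

namespace Pool.Agent.V7H46.SL3

open Entry Piece

/-! ### Cables of links are drawings -/

lemma cups_typed (l : List Strand) :
    Typed [] (cups l) (l.map edge ++ ((l.map Strand.bar).map edge).reverse) := by
  induction l with
  | nil => exact Typed.nil _
  | cons s l ih =>
    have t1 : Typed [] [(0, cup s)] [edge s, edge s.bar] := by
      have := Typed.cons [] [] (cup s) [] _ trivial (Typed.nil _)
      simpa [Piece.bot, Piece.top] using this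
    have t2 := ih.whisker [edge s] [edge s.bar]
    have t3 := t1.append (by simpa using t2)
    simpa [cups] using t3

lemma caps_typed (l : List Strand) :
    Typed (l.map edge ++ ((l.map Strand.bar).map edge).reverse) (caps l) [] := by
  induction l with
  | nil => exact Typed.nil _
  | cons s l ih =>
    have t1 : Typed [edge s, edge s.bar] [(0, cap s)] [] := by
      have := Typed.cons [] [] (cap s) [] _ trivial (Typed.nil _)
      simpa [Piece.bot, Piece.top] using this
    have t2 := ih.whisker [edge s] [edge s.bar]
    have t3 := t2.append (by simpa using t1)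
    simpa [caps] using t3

lemma passOne_typed (b : Bool) (e : Entry) (r : List Entry) (h : ∀ f ∈ r, (cross b e f).Ok) :
    Typed (e :: r) (passOne b e r) (r ++ [e]) := by
  induction r with
  | nil => exact Typed.nil _
  | cons f r ih =>
    have h2 := (ih fun g hg => h g (by simp [hg])).left [f]
    have h3 := Typed.cons [] r (cross b e f) (shift 1 (passOne b e r)) ((f :: r) ++ [e])
      (h f (by simp)) (by simpa [Piece.top] using h2)
    simpa [Piece.bot, passOne] using h3

lemma passAll_typed (b : Bool) (o r : List Entry) (h : ∀ e ∈ o, ∀ f ∈ r, (cross b e f).Ok) :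
    Typed (o ++ r) (passAll b o r) (r ++ o) := by
  induction o with
  | nil => simpa [passAll] using Typed.nil r
  | cons e o ih =>
    have h1 := (ih fun g hg => h g (by simp [hg])).left [e]
    have h2 := (passOne_typed b e r (h e (by simp))).right o
    have h3 := h1.append (by simpa using h2)
    simpa [passAll] using h3

lemma copies_strands (c : List Weight) (u : Bool) :
    copies c (edge ⟨.one, u⟩) = (copyStrands c u).map edge ∧
      copies c (edge ⟨.one, !u⟩) = (((copyStrands c u).map Strand.bar).map edge).reverse := by
  cases u <;> simp [copies, copyStrands, Strand.bar, Function.comp_def]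

/-- The pieces of links. -/
def LinkPiece (p : Piece) : Prop :=
  (∃ b, p = cup ⟨.one, b⟩) ∨ (∃ b, p = cap ⟨.one, b⟩) ∨
    ∃ b e f, p = cross b e f ∧ (∀ s, e = edge s → s.weight = .one) ∧
      ∀ s, f = edge s → s.weight = .one

lemma copies_ok (c : List Weight) (b : Bool) (e f : Entry) (h : (cross b e f).Ok) :
    ∀ x ∈ copies c e, ∀ y ∈ copies c f, (cross b x y).Ok := by
  intro x hx y hy
  cases e with
  | pole j =>
    cases f with
    | pole i => exact h.elim
    | edge s =>
      obtain ⟨l, -, he⟩ := copies_edge c s
      rw [he] at hy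
      obtain ⟨a, _, rfl⟩ := List.mem_map.1 hy
      obtain rfl : x = pole j := by simpa [copies] using hx
      trivial
  | edge s =>
    obtain ⟨l, -, he⟩ := copies_edge c s
    rw [he] at hx
    obtain ⟨a, _, rfl⟩ := List.mem_map.1 hx
    cases y <;> trivial

lemma cablePiece_typed (c : List Weight) (p : Piece) (hp : p.Ok) (h : LinkPiece p) :
    Typed (cableLines c p.bot) (cablePiece c p) (cableLines c p.top) := by
  rcases h with ⟨b, rfl⟩ | ⟨b, rfl⟩ | ⟨b, e, f, rfl, -, -⟩
  · obtain ⟨h1, h2⟩ := copies_strands c b
    have h3 := cups_typed (copyStrands c b)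
    rw [← h1, ← h2] at h3
    simpa [cableLines, Piece.bot, Piece.top, cablePiece, Strand.bar] using h3
  · obtain ⟨h1, h2⟩ := copies_strands c b
    have h3 := caps_typed (copyStrands c b)
    rw [← h1, ← h2] at h3
    simpa [cableLines, Piece.bot, Piece.top, cablePiece, Strand.bar] using h3
  · have h3 := passAll_typed b (copies c e) (copies c f) (copies_ok c b e f hp)
    simpa [cableLines, Piece.bot, Piece.top, cablePiece] using h3

lemma cable_typed_aux (c : List Weight) {o o' : List Entry} {w : Word} (h : Typed o w o')
    (hw : ∀ x ∈ w, LinkPiece x.2) :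
    Typed (cableLines c o) (cable c o w) (cableLines c o') := by
  induction h with
  | nil o => exact Typed.nil _
  | cons u v p w o' hp _ ih =>
    have h1 := ih fun x hx => hw x (by simp [hx])
    have h2 := (cablePiece_typed c p hp (hw (u.length, p) (by simp))).whisker (cableLines c u)
      (cableLines c v)
    have e1 : (u ++ p.bot ++ v).take u.length = u := by
      rw [List.append_assoc, List.take_left]
    have e2 : (u ++ p.bot ++ v).drop (u.length + p.bot.length) = v := by
      rw [← List.length_append, List.drop_left]
    rw [cable, e1, e2]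
    have e3 : ∀ a b : List Entry, cableLines c (a ++ b) = cableLines c a ++ cableLines c b := by
      intro a b
      simp [cableLines]
    rw [e3, e3] at h1
    rw [e3, e3]
    exact h2.append h1

/-- Check: the parallel copies of a link are drawings of webs in `S × [0,1]`. -/
theorem cable_typed (c : List Weight) {L : Word} (hL : IsLink L) :
    Typed base (cable c base L) base :=
  cable_typed_aux c hL.1 hL.2

/-- Check: `eight` is a knot. -/
theorem eight_isKnot : IsKnot eight := by
  refine ⟨⟨eight_typed, ?_⟩, by decide⟩
  intro x hx
  simp only [eight, List.mem_cons, List.not_mem_nil, or_false] at hx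
  rcases hx with rfl | rfl | rfl | rfl | rfl | rfl
  · exact Or.inl ⟨true, rfl⟩
  · exact Or.inr (Or.inr ⟨_, _, _, rfl, by simp [lt, Strand.bar], by simp⟩)
  · exact Or.inr (Or.inr ⟨_, _, _, rfl, by simp [lt, Strand.bar], by simp⟩)
  · exact Or.inr (Or.inr ⟨_, _, _, rfl, by simp [lt], by simp⟩)
  · exact Or.inr (Or.inr ⟨_, _, _, rfl, by simp [lt], by simp⟩)
  · exact Or.inr (Or.inl ⟨true, rfl⟩)

open MvPolynomial in
/-- Check: the power elementary polynomials for `n = 3`, `i = 1`. -/
theorem power_one : IsPowerElementary 3 1 (X 0 ^ 3 - 3 * X 0 * X 1 + 3 * X 2) := by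
  have e1 : esymm (Fin 3) ℤ 1 = X 0 + X 1 + X 2 := by
    rw [esymm, ps1, Finset.sum_insert (by decide), Finset.sum_insert (by decide),
      Finset.sum_singleton]
    simp
    ring
  have e2 : esymm (Fin 3) ℤ 2 = X 0 * X 1 + X 0 * X 2 + X 1 * X 2 := by
    rw [esymm, ps2, Finset.sum_insert (by decide), Finset.sum_insert (by decide),
      Finset.sum_singleton, Finset.prod_insert (by decide), Finset.prod_insert (by decide),
      Finset.prod_insert (by decide)]
    simp
    ring
  have e3 : esymm (Fin 3) ℤ 3 = X 0 * X 1 * X 2 := by
    rw [esymm, ps3, Finset.sum_singleton, Finset.prod_insert (by decide),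
      Finset.prod_insert (by decide)]
    simp
    ring
  rw [IsPowerElementary]
  simp only [map_add, map_sub, map_mul, map_pow, aeval_X, e1, Fin.val_zero, Fin.val_one,
    Fin.val_two, zero_add, Nat.reduceAdd, e2, e3, map_ofNat]
  ring

end Pool.Agent.V7H46.SL3
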