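import Pool.Agent.V7H46.SL3.Eqv

/-!
# A central element, for `z⁶ = 1`

At `z⁶ = 1` the crossings in front and behind differ by a scalar. Therefore a line which passes in
front of one pole and behind the other one may be moved through all pieces.
-/

set_option autoImplicit false
set_option linter.unusedSimpArgs false

namespace Pool.Agent.V7H46.SL3

open Entry Piece

variable {z : ℂ}

lemma Eqv.of_eq {c : ℂ} {o o' : List Entry} {X Y X' Y' : Word} (h : Eqv z c o o' X Y)
    (hX : X = X') (hY : Y = Y') : Eqv z c o o' X' Y' := hX ▸ hY ▸ h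

/-- crossings in front and behind differ by the factor `c` -/
def CC (z : ℂ) (e f : Entry) (c : ℂ) : Prop :=
  Eqv z c [e, f] [f, e] [(0, cross true e f)] [(0, cross false e f)]

lemma pows (hz : z ^ 6 = 1) : z ≠ 0 ∧ z⁻¹ = z ^ 5 ∧ z⁻¹⁻¹ = z ∧ (z⁻¹) ^ 2 = z ^ 4 := by
  have h0 : z ≠ 0 := by
    rintro rfl
    norm_num at hz
  have h1 : z⁻¹ = z ^ 5 := by
    field_simp
    linear_combination -hz
  refine ⟨h0, h1, inv_inv z, ?_⟩
  rw [h1]
  linear_combination z ^ 4 * hz

lemma cc_ll (hz : z ^ 6 = 1) : CC z (edge lt) (edge lt) (z ^ 4) := by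
  obtain ⟨h0, h1, h2, h3⟩ := pows hz
  refine ⟨typed_iff_run.2 (by simp [Run, Piece.bot, Piece.top, Piece.Ok]),
    typed_iff_run.2 (by simp [Run, Piece.bot, Piece.top, Piece.Ok]), fun u v A B hA hB => ?_⟩
  have e1 := cls_skein (Skein.cross11 (z := z) true z (by simp)) u v A B hA hB
  have e2 := cls_skein (Skein.cross11 (z := z) false z⁻¹ (by simp)) u v A B hA hB
  simp only [List.map_cons, List.map_nil, List.sum_cons, List.sum_nil, add_zero, one_smul]
    at e1 e2
  rw [h3, h2] at e2
  rw [h1] at e1
  generalize cls z (A ++ shift u.length [(0, cross true (edge lt) (edge lt))] ++ B) = a at *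
  generalize cls z (A ++ shift u.length [(0, cross false (edge lt) (edge lt))] ++ B) = b at *
  generalize cls z (A ++ shift u.length [] ++ B) = c at *
  generalize cls z (A ++ shift u.length [(0, merge), (0, split)] ++ B) = d at *
  have hz8 : z ^ 4 * z ^ 4 = z ^ 2 := by linear_combination z ^ 2 * hz
  have hz5 : z ^ 4 * z = z ^ 5 := by ring
  have e3 : a = a + (-z ^ 2) • c + z ^ 5 • d - z ^ 4 • (b + (-z ^ 4) • c + z • d) + z ^ 4 • b := by
    simp only [smul_add, smul_smul, mul_neg, hz8, hz5]
    module
  rw [e3]
  have e4 : a + (-z ^ 2) • c + z ^ 5 • d = 0 := by rw [← e1]; abel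
  have e5 : b + (-z ^ 4) • c + z • d = 0 := by rw [← e2]; abel
  rw [e4, e5]
  simp

lemma cc_lh (hz : z ^ 6 = 1) : CC z (edge lt) (edge hv) (z ^ 2) := by
  obtain ⟨h0, h1, h2, h3⟩ := pows hz
  refine ⟨typed_iff_run.2 (by simp [Run, Piece.bot, Piece.top, Piece.Ok]),
    typed_iff_run.2 (by simp [Run, Piece.bot, Piece.top, Piece.Ok]), fun u v A B hA hB => ?_⟩
  have e1 := cls_skein (Skein.cross12 (z := z) true z (by simp)) u v A B hA hB
  have e2 := cls_skein (Skein.cross12 (z := z) false z⁻¹ (by simp)) u v A B hA hB
  simp only [List.map_cons, List.map_nil, List.sum_cons, List.sum_nil, add_zero, one_smul]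
    at e1 e2
  rw [h3] at e1
  rw [h2, h1] at e2
  generalize cls z (A ++ shift u.length [(0, cross true (edge lt) (edge hv))] ++ B) = a at *
  generalize cls z (A ++ shift u.length [(0, cross false (edge lt) (edge hv))] ++ B) = b at *
  generalize cls z (A ++ shift u.length [(1, split), (0, merge)] ++ B) = c at *
  generalize cls z (A ++ shift u.length [(0, sink12), (0, source21)] ++ B) = d at *
  have hz7 : z ^ 2 * z ^ 5 = z := by linear_combination z * hz
  have hz4 : z ^ 2 * z ^ 2 = z ^ 4 := by ring
  have e3 : a = a + z • c + (-z ^ 4) • d - z ^ 2 • (b + z ^ 5 • c + (-z ^ 2) • d) + z ^ 2 • b := by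
    simp only [smul_add, smul_smul, mul_neg, hz7, hz4]
    module
  rw [e3]
  have e4 : a + z • c + (-z ^ 4) • d = 0 := by rw [← e1]; abel
  have e5 : b + z ^ 5 • c + (-z ^ 2) • d = 0 := by rw [← e2]; abel
  rw [e4, e5]
  simp

lemma CC.symm {e f : Entry} {c : ℂ} (hef : (cross true e f).Ok) (h : CC z e f c) :
    CC z f e c := by
  have hfe : (cross true f e).Ok := by cases e <;> cases f <;> simp_all [Piece.Ok]
  have hfe' : (cross false f e).Ok := by cases e <;> cases f <;> simp_all [Piece.Ok]
  have t1 : Typed [f, e] [(0, cross true f e)] [e, f] :=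
    typed_iff_run.2 (by simp [Run, Piece.bot, Piece.top, hfe])
  have t2 : Typed [f, e] [(0, cross false f e)] [e, f] :=
    typed_iff_run.2 (by simp [Run, Piece.bot, Piece.top, hfe'])
  have r1 := Eqv.of_move (z := z) (Move.reidemeister2 true e f hef)
  have r2 := Eqv.of_move (z := z) (Move.reidemeister2 true f e hfe)
  have s1 := (Eqv.refl (z := z) t1).comp1 r1.symm1
  have s2 := Eqv.mid t1 h t2
  have s3 := r2.comp1 (Eqv.refl (z := z) t2)
  have s4 := (s1.trans (s2.of_eq (by rfl) rfl)).trans (s3.of_eq (by rfl) rfl)
  rw [one_mul, mul_one] at s4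
  exact s4.of_eq (by rfl) (by rfl)

lemma rotate (b : Bool) (s : Strand) (f : Entry) :
    Eqv z 1 [edge s.bar, f] [f, edge s.bar] [(0, cross b (edge s.bar) f)]
      [(2, cup s), (1, cross (!b) f (edge s)), (0, cap s.bar)] := by
  have m1 := (Eqv.of_move (z := z) (Move.cupSlide b s f)).left [edge s.bar]
  have m2 := (Eqv.of_move (z := z) (Move.exchange (cap s.bar) (cross b (edge s.bar) f) []
    trivial (by cases f <;> trivial)))
  have m3 := (Eqv.of_move (z := z) (Move.zigzagLeft s.bar)).right [f]
  simp only [shift_cons, shift_nil, List.length_cons, List.length_nil, Piece.top, Piece.bot,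
    List.cons_append, List.nil_append, List.append_nil, List.length_append, zero_add,
    bar_bar] at m1 m2 m3
  have t1 : Typed [edge s.bar, edge s, f, edge s.bar] [(0, cap s.bar)] [f, edge s.bar] :=
    typed_iff_run.2 (by simp [Run, Piece.bot, Piece.top, Piece.Ok, bar_bar])
  have t2 : Typed [edge s.bar, f] [(1, cup s)] [edge s.bar, edge s, edge s.bar, f] :=
    typed_iff_run.2 (by simp [Run, Piece.bot, Piece.top, Piece.Ok, bar_bar])
  have t3 : Typed [edge s.bar, f] [(0, cross b (edge s.bar) f)] [f, edge s.bar] :=
    typed_iff_run.2 (by simp [Run, Piece.bot, Piece.top, Piece.Ok, bar_bar])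
  have s1 := m1.symm1.comp1 (Eqv.refl t1)
  have s2 := (Eqv.refl (z := z) t2).comp1 m2.symm1
  have s3 := m3.comp1 (Eqv.refl t3)
  have s4 := (s1.trans1 (s2.of_eq (by rfl) rfl)).trans1 (s3.of_eq (by rfl) rfl)
  exact s4.symm1.of_eq (by rfl) (by rfl)

lemma CC.rotate {f : Entry} {s : Strand} {c : ℂ} (hc : c ≠ 0) (h : CC z f (edge s) c) :
    CC z (edge s.bar) f c⁻¹ := by
  have h1 := SL3.rotate (z := z) true s f
  have h2 := SL3.rotate (z := z) false s f
  have t1 : Typed [edge s.bar, f] [(2, cup s)] [edge s.bar, f, edge s, edge s.bar] :=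
    typed_iff_run.2 (by simp [Run, Piece.bot, Piece.top, Piece.Ok, bar_bar])
  have t2 : Typed [edge s.bar, edge s, f, edge s.bar] [(0, cap s.bar)] [f, edge s.bar] :=
    typed_iff_run.2 (by simp [Run, Piece.bot, Piece.top, Piece.Ok, bar_bar])
  have h3 := (Eqv.symm hc h).whisker [edge s.bar] [edge s.bar]
  have h4 := Eqv.mid t1 h3 t2
  have h5 := (h1.trans (h4.of_eq (by rfl) rfl)).trans (h2.symm1.of_eq (by rfl) rfl)
  rw [one_mul, mul_one] at h5
  exact h5

/-- crossings in front and behind differ by a nonzero factor -/
def Ex (z : ℂ) (e f : Entry) : Prop := ∃ c : ℂ, c ≠ 0 ∧ CC z e f c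

lemma Ex.symm {e f : Entry} (hef : (cross true e f).Ok) (h : Ex z e f) : Ex z f e := by
  obtain ⟨c, hc, h⟩ := h
  exact ⟨c, hc, CC.symm hef h⟩

lemma Ex.rotate {f : Entry} {s : Strand} (h : Ex z f (edge s)) : Ex z (edge s.bar) f := by
  obtain ⟨c, hc, h⟩ := h
  exact ⟨c⁻¹, inv_ne_zero hc, CC.rotate hc h⟩

lemma ex_all (hz : z ^ 6 = 1) (s t : Strand) (hs : s.weight = .one) :
    Ex z (edge s) (edge t) := by
  obtain ⟨h0, -, -, -⟩ := pows hz
  have a1 : Ex z (edge lt) (edge lt) := ⟨z ^ 4, pow_ne_zero 4 h0, cc_ll hz⟩
  have a2 : Ex z (edge lt) (edge hv) := ⟨z ^ 2, pow_ne_zero 2 h0, cc_lh hz⟩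
  have a3 : Ex z (edge hv) (edge lt) := a2.symm trivial
  have a4 : Ex z (edge lt.bar) (edge lt) := a1.rotate
  have a5 : Ex z (edge lt) (edge lt.bar) := a4.symm trivial
  have a6 : Ex z (edge lt.bar) (edge hv) := a3.rotate
  have a7 : Ex z (edge hv.bar) (edge lt) := a2.rotate
  have a8 : Ex z (edge lt) (edge hv.bar) := a7.symm trivial
  have a9 : Ex z (edge lt.bar) (edge lt.bar) := a4.rotate
  have a10 : Ex z (edge hv.bar) (edge lt.bar) := a6.rotate
  have a11 : Ex z (edge lt.bar) (edge hv.bar) := a10.symm trivial
  rcases s with ⟨w, u⟩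
  obtain rfl : w = .one := hs
  rcases t with ⟨w', u'⟩
  cases u <;> cases w' <;> cases u'
  · exact a9
  · exact a4
  · exact a11
  · exact a6
  · exact a5
  · exact a1
  · exact a8
  · exact a2

/-! ### Lines -/

/-- How a line passes another line: in front of edges, and as prescribed by `κ` for the poles. -/
def side (κ : Fin 2 → Bool) : Entry → Bool
  | pole j => κ j
  | edge _ => true

/-- The line `s` passes the lines `o` from left to right. -/
def line (κ : Fin 2 → Bool) (s : Strand) : List Entry → Word
  | [] => []
  | x :: o => (0, cross (side κ x) (edge s) x) :: shift 1 (line κ s o)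

lemma ok_edge (b : Bool) (s : Strand) (x : Entry) : (cross b (edge s) x).Ok := by
  cases x <;> trivial

lemma line_typed (κ : Fin 2 → Bool) (s : Strand) (o : List Entry) :
    Typed (edge s :: o) (line κ s o) (o ++ [edge s]) := by
  induction o with
  | nil => exact Typed.nil _
  | cons x o ih =>
    have h := Typed.cons [] o (cross (side κ x) (edge s) x) (shift 1 (line κ s o))
      ((x :: o) ++ [edge s]) (ok_edge _ _ _) (by simpa [Piece.top] using ih.left [x])
    simpa [Piece.bot, line] using h

lemma line_append (κ : Fin 2 → Bool) (s : Strand) (o r : List Entry) :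
    line κ s (o ++ r) = line κ s o ++ shift o.length (line κ s r) := by
  induction o with
  | nil => simp [line, shift_zero]
  | cons x o ih => simp [line, ih, shift_append, shift_shift]

/-- a line passes a crossing -/
lemma slide_cross (b β γ : Bool) (s : Strand) (f g : Entry) (h : ¬ (β = b ∧ γ ≠ β))
    (hfg : (cross b f g).Ok) :
    Eqv z 1 [edge s, f, g] [g, f, edge s]
      [(1, cross b f g), (0, cross γ (edge s) g), (1, cross β (edge s) f)]
      [(0, cross β (edge s) f), (1, cross γ (edge s) g), (0, cross b f g)] :=
  (Eqv.of_move (Move.reidemeister3 β γ b (edge s) f g h (ok_edge _ _ _) (ok_edge _ _ _)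
    hfg)).symm1

lemma local_nat (hz : z ^ 6 = 1) (κ : Fin 2 → Bool) (s : Strand) (hs : s.weight = .one)
    (p : Piece) (hp : p.Ok) :
    Eqv z 1 (edge s :: p.bot) (p.top ++ [edge s]) ((1, p) :: line κ s p.top)
      (line κ s p.bot ++ [(0, p)]) := by
  cases p with
  | cup t =>
    have m1 := Eqv.of_move (z := z) (Move.cupSlide false t (edge s))
    have m2 := (Eqv.of_move (z := z) (Move.reidemeister2 false (edge t.bar) (edge s)
      trivial)).left [edge t]
    simp only [shift_cons, shift_nil, List.length_cons, List.length_nil, List.cons_append,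
      List.nil_append, zero_add, Bool.not_false] at m1 m2
    have t1 : Typed [edge t, edge s, edge t.bar] [(1, cross true (edge s) (edge t.bar))]
        [edge t, edge t.bar, edge s] :=
      typed_iff_run.2 (by simp [Run, Piece.bot, Piece.top, Piece.Ok])
    have t2 : Typed [edge s] [(0, cup t)] [edge t, edge t.bar, edge s] :=
      typed_iff_run.2 (by simp [Run, Piece.bot, Piece.top, Piece.Ok])
    have s1 := m1.symm1.comp1 (Eqv.refl t1)
    have s2 := (Eqv.refl (z := z) t2).comp1 m2
    exact (s1.trans1 (s2.of_eq (by rfl) rfl)).of_eq (by rfl) (by rfl)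
  | cap t =>
    have m1 := Eqv.of_move (z := z) (Move.capSlide true t (edge s))
    have m2 := (Eqv.of_move (z := z) (Move.reidemeister2 true (edge s) (edge t)
      trivial)).right [edge t.bar]
    simp only [List.cons_append, List.nil_append, Bool.not_true] at m1 m2
    have t1 : Typed [edge s, edge t, edge t.bar] [(0, cross true (edge s) (edge t))]
        [edge t, edge s, edge t.bar] :=
      typed_iff_run.2 (by simp [Run, Piece.bot, Piece.top, Piece.Ok])
    have t2 : Typed [edge s, edge t, edge t.bar] [(1, cap t)] [edge s] :=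
      typed_iff_run.2 (by simp [Run, Piece.bot, Piece.top, Piece.Ok])
    have s1 := (Eqv.refl (z := z) t1).comp1 m1
    have s2 := m2.comp1 (Eqv.refl t2)
    exact (s1.trans1 (s2.of_eq (by rfl) rfl)).symm1.of_eq (by rfl) (by rfl)
  | cross b f g =>
    by_cases hk : side κ f = side κ g
    · have h := slide_cross (z := z) b (side κ f) (side κ f) s f g (by simp) hp
      refine h.of_eq ?_ ?_
      · simp [line, shift_cons, shift_nil, Piece.top, hk]
      · simp [line, shift_cons, shift_nil, Piece.bot, hk]
    · cases f with
      | pole j =>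
        cases g with
        | pole i => exact hp.elim
        | edge t =>
          have hj : κ j = false := by
            simp only [side] at hk
            cases h : κ j
            · rfl
            · rw [h] at hk
              exact absurd rfl hk
          obtain ⟨c, hc, hcc⟩ := ex_all hz s t hs
          have h := slide_cross (z := z) b false false s (pole j) (edge t) (by simp) hp
          -- change the crossings of `s` and `t`
          have c1 := hcc.right [pole j]
          have c2 := (Eqv.symm hc hcc).left [pole j]
          have t1 : Typed [edge s, pole j, edge t] [(1, cross b (pole j) (edge t))]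
              [edge s, edge t, pole j] :=
            typed_iff_run.2 (by simp [Run, Piece.bot, Piece.top, Piece.Ok])
          have t2 : Typed [edge t, edge s, pole j] [(1, cross false (edge s) (pole j))]
              [edge t, pole j, edge s] :=
            typed_iff_run.2 (by simp [Run, Piece.bot, Piece.top, Piece.Ok])
          have t3 : Typed [edge s, pole j, edge t] [(0, cross false (edge s) (pole j))]
              [pole j, edge s, edge t] :=
            typed_iff_run.2 (by simp [Run, Piece.bot, Piece.top, Piece.Ok])
          have t4 : Typed [pole j, edge t, edge s] [(0, cross b (pole j) (edge t))]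
              [edge t, pole j, edge s] :=
            typed_iff_run.2 (by simp [Run, Piece.bot, Piece.top, Piece.Ok])
          have s1 := Eqv.mid t1 c1 t2
          have s2 := Eqv.mid t3 c2 t4
          have s3 := (s1.trans (h.of_eq (by rfl) rfl)).trans (s2.of_eq (by rfl) rfl)
          rw [mul_one, mul_inv_cancel₀ hc] at s3
          refine s3.of_eq ?_ ?_
          · simp [line, shift_cons, shift_nil, Piece.top, side, hj]
          · simp [line, shift_cons, shift_nil, Piece.bot, side, hj]
      | edge t =>
        cases g with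
        | edge t' => exact absurd rfl hk
        | pole j =>
          have hj : κ j = false := by
            simp only [side] at hk
            cases h : κ j
            · rfl
            · rw [h] at hk
              exact absurd rfl hk
          obtain ⟨c, hc, hcc⟩ := ex_all hz s t hs
          have h := slide_cross (z := z) b false false s (edge t) (pole j) (by simp) hp
          have c1 := hcc.left [pole j]
          have c2 := (Eqv.symm hc hcc).right [pole j]
          have t1 : Typed [edge s, edge t, pole j]
              [(1, cross b (edge t) (pole j)), (0, cross false (edge s) (pole j))]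
              [pole j, edge s, edge t] :=
            typed_iff_run.2 (by simp [Run, Piece.bot, Piece.top, Piece.Ok])
          have t4 : Typed [edge t, edge s, pole j]
              [(1, cross false (edge s) (pole j)), (0, cross b (edge t) (pole j))]
              [pole j, edge t, edge s] :=
            typed_iff_run.2 (by simp [Run, Piece.bot, Piece.top, Piece.Ok])
          have s1 := Eqv.mid t1 c1 (Typed.nil _)
          have s2 := Eqv.mid (Typed.nil _) c2 t4
          have s3 := (s1.trans (h.of_eq (by rfl) rfl)).trans (s2.of_eq (by rfl) rfl)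
          rw [mul_one, mul_inv_cancel₀ hc] at s3
          refine s3.of_eq ?_ ?_
          · simp [line, shift_cons, shift_nil, Piece.top, side, hj]
          · simp [line, shift_cons, shift_nil, Piece.bot, side, hj]
  | merge => exact (Eqv.of_move (Move.mergeSlide true (edge s))).of_eq (by rfl) (by rfl)
  | split => exact (Eqv.of_move (Move.splitSlide true (edge s))).of_eq (by rfl) (by rfl)
  | sink12 => exact (Eqv.of_move (Move.sink12Slide true (edge s))).of_eq (by rfl) (by rfl)
  | sink21 => exact (Eqv.of_move (Move.sink21Slide true (edge s))).of_eq (by rfl) (by rfl)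
  | source12 => exact (Eqv.of_move (Move.source12Slide true (edge s))).of_eq (by rfl) (by rfl)
  | source21 => exact (Eqv.of_move (Move.source21Slide true (edge s))).of_eq (by rfl) (by rfl)

end Pool.Agent.V7H46.SL3
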