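import Pool.Agent.V7H46.SL3.Functor

/-!
# The evaluation respects the local moves and the skein relations
-/

set_option autoImplicit false

namespace Pool.Agent.V7H46.SL3

open Entry Piece

variable (P : Par)

lemma entry_edge {x : St} {s : Strand} : x.entry = edge s ↔ ∃ a, x = .edge s a := by
  cases x with
  | pole j => simp [St.entry]
  | edge t a => simp [St.entry]

lemma entry_pole {x : St} {j : Fin 2} : x.entry = pole j ↔ x = .pole j := by
  cases x with
  | pole j => simp [St.entry]
  | edge t a => simp [St.entry]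

lemma sum_comm_list {α β : Type} (l : List α) (m : List β) (f : α → ℂ) (g : β → ℂ)
    (h : α → β → ℂ) :
    (l.map fun x => f x * (m.map fun y => g y * h x y).sum).sum =
      (m.map fun y => g y * (l.map fun x => f x * h x y).sum).sum := by
  induction l with
  | nil => simp
  | cons a l ih =>
    simp only [List.map_cons, List.sum_cons, mul_add, List.sum_map_add, ih]
    congr 1
    rw [← List.sum_map_mul_left]
    congr 1
    apply List.map_congr_left
    intro y _
    ring

/-- evaluation of a first piece in the middle -/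
lemma ev_piece (p : Piece) (w : Word) (f : List St → ℂ) (su st sv : List St)
    (ht : st.length = p.bot.length) :
    ev P ((su.length, p) :: w) f (su ++ st ++ sv) =
      ((out P p st).map fun x => x.1 * ev P w f (su ++ x.2 ++ sv)).sum := by
  rw [ev_cons]
  have e1 : ((su ++ st ++ sv).drop su.length).take p.bot.length = st := by
    rw [← ht, List.append_assoc, List.drop_left, List.take_left]
  have e2 : (su ++ st ++ sv).take su.length = su := by
    rw [List.append_assoc, List.take_left]
  have e3 : (su ++ st ++ sv).drop (su.length + p.bot.length) = sv := by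
    rw [← ht, ← List.length_append, List.drop_left]
  rw [e1, e2, e3]

lemma len_of_map {t : List St} {o : List Entry} (h : t.map St.entry = o) :
    t.length = o.length := by
  rw [← h, List.length_map]

lemma exchange_ev (p q : Piece) (tp tm tq r : List St) (f : List St → ℂ)
    (hp : tp.map St.entry = p.bot) (hq : tq.map St.entry = q.bot) :
    ev P [(0, p), (p.top.length + tm.length, q)] f (tp ++ tm ++ tq ++ r) =
      ev P [(p.bot.length + tm.length, q), (0, p)] f (tp ++ tm ++ tq ++ r) := by
  have h1 := ev_piece P p [(p.top.length + tm.length, q)] f [] tp (tm ++ tq ++ r)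
    (len_of_map hp)
  have h2 := ev_piece P q [(0, p)] f (tp ++ tm) tq r (len_of_map hq)
  simp only [List.length_nil, List.nil_append] at h1
  rw [List.length_append, len_of_map hp] at h2
  have a1 : tp ++ (tm ++ tq ++ r) = tp ++ tm ++ tq ++ r := by simp
  rw [a1] at h1
  rw [h1, h2]
  have e1 : ∀ x ∈ out P p tp, x.1 * ev P [(p.top.length + tm.length, q)] f
      (x.2 ++ (tm ++ tq ++ r)) =
      x.1 * ((out P q tq).map fun y => y.1 * f (x.2 ++ tm ++ y.2 ++ r)).sum := by
    intro x hx
    have h3 := ev_piece P q [] f (x.2 ++ tm) tq r (len_of_map hq)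
    rw [List.length_append, len_of_map (out_type P p tp hp x hx)] at h3
    have a2 : x.2 ++ (tm ++ tq ++ r) = x.2 ++ tm ++ tq ++ r := by simp
    rw [a2, h3]
    rfl
  have e2 : ∀ y ∈ out P q tq, y.1 * ev P [(0, p)] f (tp ++ tm ++ y.2 ++ r) =
      y.1 * ((out P p tp).map fun x => x.1 * f (x.2 ++ tm ++ y.2 ++ r)).sum := by
    intro y hy
    have h3 := ev_piece P p [] f [] tp (tm ++ y.2 ++ r) (len_of_map hp)
    simp only [List.length_nil, List.nil_append] at h3
    have a2 : tp ++ tm ++ y.2 ++ r = tp ++ (tm ++ y.2 ++ r) := by simp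
    rw [a2, h3]
    congr 2
    apply List.map_congr_left
    intro x _
    rw [ev_nil]
    simp
  rw [List.map_congr_left e1, List.map_congr_left e2]
  exact sum_comm_list _ _ (fun x : ℂ × List St => x.1) (fun y : ℂ × List St => y.1)
    (fun x y => f (x.2 ++ tm ++ y.2 ++ r))


lemma wt_lh (b : Bool) (y : St) (a : Fin 3) :
    wt P b y (.edge lt a) * wt P b y (.edge hv a) = 1 := by
  have hz := P.t_ne
  cases y with
  | pole j =>
    have hx := P.x_ne j a
    cases b <;> simp [wt, lt, hv, Strand.sign, hx]
  | edge t c =>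
    have hz' := zpow_ne_zero t.sign hz
    have h1 : lt.sign = 1 := rfl
    have h2 : hv.sign = -1 := rfl
    cases b <;> simp [wt, h1, h2, hz']

lemma fin3 (a : Fin 3) : a = 0 ∨ a = 1 ∨ a = 2 := by
  fin_cases a <;> simp

set_option linter.unusedSimpArgs false

lemma move_ev {o o' : List Entry} {X Y : Word} (h : Move o o' X Y) (t : List St)
    (ht : t.map St.entry = o) (f : List St → ℂ) (r : List St) :
    ev P X f (t ++ r) = ev P Y f (t ++ r) := by
  cases h with
  | exchange p q m hp hq =>
    obtain ⟨t₁, tq, rfl, h1, hq'⟩ := List.map_eq_append_iff.1 ht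
    obtain ⟨tp, tm, rfl, hp', hm⟩ := List.map_eq_append_iff.1 h1
    rw [← len_of_map hm]
    exact exchange_ev P p q tp tm tq r f hp' hq'
  | zigzagRight s =>
    rcases t with _ | ⟨a, _ | ⟨b, t⟩⟩ <;> simp at ht
    obtain ⟨a, rfl⟩ := entry_edge.1 ht
    rcases fin3 a with rfl | rfl | rfl <;> simp only [ev_cons, ev_nil, out, Piece.bot, List.drop_zero, List.drop_succ_cons,
      List.take_succ_cons, List.take_zero, List.length_cons, List.length_nil, List.cons_append,
      List.nil_append, List.map_cons, List.map_nil, List.sum_cons, List.sum_nil, zero_add,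
      add_zero, Nat.reduceAdd, Fin.isValue, Fin.reduceEq, Fin.reduceAdd, ↓reduceIte, bar_bar, mul_zero,
      one_mul, neg_mul, mul_one]
  | zigzagLeft s =>
    rcases t with _ | ⟨a, _ | ⟨b, t⟩⟩ <;> simp at ht
    obtain ⟨a, rfl⟩ := entry_edge.1 ht
    rcases fin3 a with rfl | rfl | rfl <;> simp only [ev_cons, ev_nil, out, Piece.bot, List.drop_zero, List.drop_succ_cons,
      List.take_succ_cons, List.take_zero, List.length_cons, List.length_nil, List.cons_append,
      List.nil_append, List.map_cons, List.map_nil, List.sum_cons, List.sum_nil, zero_add,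
      add_zero, Nat.reduceAdd, Fin.isValue, Fin.reduceEq, Fin.reduceAdd, ↓reduceIte, bar_bar, mul_zero,
      one_mul, neg_mul, mul_one]
  | cupSlide b s e =>
    rcases t with _ | ⟨a, _ | ⟨c, t⟩⟩ <;> simp at ht
    simp [ev, out, Piece.bot, wt_bar_left]
  | capSlide b s e =>
    rcases t with _ | ⟨x, _ | ⟨y, _ | ⟨w, _ | ⟨c, t⟩⟩⟩⟩ <;> simp at ht
    obtain ⟨hx, hy, hw⟩ := ht
    obtain ⟨a, rfl⟩ := entry_edge.1 hx
    obtain ⟨c, rfl⟩ := entry_edge.1 hw
    by_cases hac : a = c
    · subst hac
      simp [ev, out, Piece.bot, wt_bar_right]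
    · simp [ev, out, Piece.bot, wt_bar_right, hac]
  | curl b s =>
    rcases t with _ | ⟨a, _ | ⟨c, t⟩⟩ <;> simp at ht
    obtain ⟨a, rfl⟩ := entry_edge.1 ht
    rcases fin3 a with rfl | rfl | rfl <;> simp only [ev_cons, ev_nil, out, Piece.bot, List.drop_zero, List.drop_succ_cons,
      List.take_succ_cons, List.take_zero, List.length_cons, List.length_nil, List.cons_append,
      List.nil_append, List.map_cons, List.map_nil, List.sum_cons, List.sum_nil, zero_add,
      add_zero, Nat.reduceAdd, Fin.isValue, Fin.reduceEq, Fin.reduceAdd, ↓reduceIte, bar_bar, mul_zero,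
      one_mul, neg_mul, mul_one]
  | reidemeister2 b e g hh =>
    rcases t with _ | ⟨x, _ | ⟨y, _ | ⟨w, t⟩⟩⟩ <;> simp at ht
    have h1 := wt_mul P b x y
    simp [ev, out, Piece.bot]
    rw [← mul_assoc, h1, one_mul]
  | reidemeister3 a b c e g k h hef heg hfg =>
    rcases t with _ | ⟨x, _ | ⟨y, _ | ⟨w, _ | ⟨v, t⟩⟩⟩⟩ <;> simp at ht
    simp only [ev_cons, ev_nil, out, Piece.bot, List.drop_zero, List.drop_succ_cons,
      List.take_succ_cons, List.take_zero, List.length_cons, List.length_nil, List.cons_append,
      List.nil_append, List.map_cons, List.map_nil, List.sum_cons, List.sum_nil, zero_add,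
      add_zero, Nat.reduceAdd]
    ring
  | mergeSlide b e =>
    rcases t with _ | ⟨x, _ | ⟨y, _ | ⟨w, _ | ⟨v, t⟩⟩⟩⟩ <;> simp at ht
    obtain ⟨hx, hy, hw⟩ := ht
    obtain ⟨a, rfl⟩ := entry_edge.1 hy
    obtain ⟨c, rfl⟩ := entry_edge.1 hw
    have h0 := wt_merge P b x 0
    have h1 := wt_merge P b x 1
    have h2 := wt_merge P b x 2
    simp only [Fin.isValue, Fin.reduceAdd, zero_add] at h0 h1 h2
    rcases fin3 a with rfl | rfl | rfl <;> rcases fin3 c with rfl | rfl | rfl <;>
      simp only [ev_cons, ev_nil, out, Piece.bot, List.drop_zero, List.drop_succ_cons,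
      List.take_succ_cons, List.take_zero, List.length_cons, List.length_nil, List.cons_append,
      List.nil_append, List.map_cons, List.map_nil, List.sum_cons, List.sum_nil, zero_add,
      add_zero, Nat.reduceAdd, Fin.isValue, Fin.reduceEq, Fin.reduceAdd, ↓reduceIte, bar_bar, mul_zero,
      one_mul, neg_mul, mul_one] <;>
      (try rw [← h0]) <;> (try rw [← h1]) <;> (try rw [← h2]) <;> ring
  | splitSlide b e =>
    rcases t with _ | ⟨x, _ | ⟨y, _ | ⟨w, t⟩⟩⟩ <;> simp at ht
    obtain ⟨hx, hy⟩ := ht
    obtain ⟨c, rfl⟩ := entry_edge.1 hy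
    have h0 := wt_merge P b x c
    simp only [ev_cons, ev_nil, out, Piece.bot, List.drop_zero, List.drop_succ_cons,
      List.take_succ_cons, List.take_zero, List.length_cons, List.length_nil, List.cons_append,
      List.nil_append, List.map_cons, List.map_nil, List.sum_cons, List.sum_nil, zero_add,
      add_zero, Nat.reduceAdd]
    rw [← h0]
    ring
  | sink12Slide b e =>
    rcases t with _ | ⟨x, _ | ⟨y, _ | ⟨w, _ | ⟨v, t⟩⟩⟩⟩ <;> simp at ht
    obtain ⟨hx, hy, hw⟩ := ht
    obtain ⟨a, rfl⟩ := entry_edge.1 hy
    obtain ⟨c, rfl⟩ := entry_edge.1 hw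
    by_cases hac : a = c
    · subst hac
      have h0 := wt_lh P b x a
      simp only [ev_cons, ev_nil, out, Piece.bot, List.drop_zero, List.drop_succ_cons,
      List.take_succ_cons, List.take_zero, List.length_cons, List.length_nil, List.cons_append,
      List.nil_append, List.map_cons, List.map_nil, List.sum_cons, List.sum_nil, zero_add,
      add_zero, Nat.reduceAdd, if_true]
      linear_combination (-f (x :: r)) * h0
    · simp only [ev_cons, ev_nil, out, Piece.bot, List.drop_zero, List.drop_succ_cons,
      List.take_succ_cons, List.take_zero, List.length_cons, List.length_nil, List.cons_append,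
      List.nil_append, List.map_cons, List.map_nil, List.sum_cons, List.sum_nil, zero_add,
      add_zero, Nat.reduceAdd, if_neg hac, mul_zero]
  | sink21Slide b e =>
    rcases t with _ | ⟨x, _ | ⟨y, _ | ⟨w, _ | ⟨v, t⟩⟩⟩⟩ <;> simp at ht
    obtain ⟨hx, hy, hw⟩ := ht
    obtain ⟨a, rfl⟩ := entry_edge.1 hy
    obtain ⟨c, rfl⟩ := entry_edge.1 hw
    by_cases hac : a = c
    · subst hac
      have h0 := wt_lh P b x a
      simp only [ev_cons, ev_nil, out, Piece.bot, List.drop_zero, List.drop_succ_cons,
      List.take_succ_cons, List.take_zero, List.length_cons, List.length_nil, List.cons_append,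
      List.nil_append, List.map_cons, List.map_nil, List.sum_cons, List.sum_nil, zero_add,
      add_zero, Nat.reduceAdd, if_true]
      linear_combination (-f (x :: r)) * h0
    · simp only [ev_cons, ev_nil, out, Piece.bot, List.drop_zero, List.drop_succ_cons,
      List.take_succ_cons, List.take_zero, List.length_cons, List.length_nil, List.cons_append,
      List.nil_append, List.map_cons, List.map_nil, List.sum_cons, List.sum_nil, zero_add,
      add_zero, Nat.reduceAdd, if_neg hac, mul_zero]
  | source12Slide b e =>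
    rcases t with _ | ⟨x, _ | ⟨y, t⟩⟩ <;> simp at ht
    have h0 := wt_lh P b x 0
    have h1 := wt_lh P b x 1
    have h2 := wt_lh P b x 2
    simp only [ev_cons, ev_nil, out, Piece.bot, List.drop_zero, List.drop_succ_cons,
      List.take_succ_cons, List.take_zero, List.length_cons, List.length_nil, List.cons_append,
      List.nil_append, List.map_cons, List.map_nil, List.sum_cons, List.sum_nil, zero_add,
      add_zero, Nat.reduceAdd]
    linear_combination (f (.edge lt 0 :: .edge hv 0 :: x :: r)) * h0 +
      (f (.edge lt 1 :: .edge hv 1 :: x :: r)) * h1 +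
      (f (.edge lt 2 :: .edge hv 2 :: x :: r)) * h2
  | source21Slide b e =>
    rcases t with _ | ⟨x, _ | ⟨y, t⟩⟩ <;> simp at ht
    have h0 := wt_lh P b x 0
    have h1 := wt_lh P b x 1
    have h2 := wt_lh P b x 2
    simp only [ev_cons, ev_nil, out, Piece.bot, List.drop_zero, List.drop_succ_cons,
      List.take_succ_cons, List.take_zero, List.length_cons, List.length_nil, List.cons_append,
      List.nil_append, List.map_cons, List.map_nil, List.sum_cons, List.sum_nil, zero_add,
      add_zero, Nat.reduceAdd]
    linear_combination (f (.edge hv 0 :: .edge lt 0 :: x :: r)) * h0 +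
      (f (.edge hv 1 :: .edge lt 1 :: x :: r)) * h1 +
      (f (.edge hv 2 :: .edge lt 2 :: x :: r)) * h2
  | mergeTurn =>
    rcases t with _ | ⟨x, _ | ⟨y, t⟩⟩ <;> simp at ht
    obtain ⟨a, rfl⟩ := entry_edge.1 ht
    rcases fin3 a with rfl | rfl | rfl <;> simp only [ev_cons, ev_nil, out, Piece.bot, List.drop_zero, List.drop_succ_cons,
      List.take_succ_cons, List.take_zero, List.length_cons, List.length_nil, List.cons_append,
      List.nil_append, List.map_cons, List.map_nil, List.sum_cons, List.sum_nil, zero_add,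
      add_zero, Nat.reduceAdd, Fin.isValue, Fin.reduceEq, Fin.reduceAdd, ↓reduceIte, bar_bar, mul_zero,
      one_mul, neg_mul, mul_one] <;> ring
  | splitTurn =>
    rcases t with _ | ⟨x, _ | ⟨y, _ | ⟨w, t⟩⟩⟩ <;> simp at ht
    obtain ⟨hx, hy⟩ := ht
    obtain ⟨a, rfl⟩ := entry_edge.1 hx
    obtain ⟨c, rfl⟩ := entry_edge.1 hy
    rcases fin3 a with rfl | rfl | rfl <;> rcases fin3 c with rfl | rfl | rfl <;>
      simp only [ev_cons, ev_nil, out, Piece.bot, List.drop_zero, List.drop_succ_cons,
      List.take_succ_cons, List.take_zero, List.length_cons, List.length_nil, List.cons_append,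
      List.nil_append, List.map_cons, List.map_nil, List.sum_cons, List.sum_nil, zero_add,
      add_zero, Nat.reduceAdd, Fin.isValue, Fin.reduceEq, Fin.reduceAdd, ↓reduceIte, bar_bar, mul_zero,
      one_mul, neg_mul, mul_one] <;> ring
  | sink12Turn =>
    rcases t with _ | ⟨x, t⟩ <;> simp at ht
    simp only [ev_cons, ev_nil, out, Piece.bot, List.drop_zero, List.drop_succ_cons,
      List.take_succ_cons, List.take_zero, List.length_cons, List.length_nil, List.cons_append,
      List.nil_append, List.map_cons, List.map_nil, List.sum_cons, List.sum_nil, zero_add,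
      add_zero, Nat.reduceAdd, Fin.isValue, Fin.reduceEq, Fin.reduceAdd, ↓reduceIte, bar_bar, mul_zero,
      one_mul, neg_mul, mul_one]
  | sink21Turn =>
    rcases t with _ | ⟨x, t⟩ <;> simp at ht
    simp only [ev_cons, ev_nil, out, Piece.bot, List.drop_zero, List.drop_succ_cons,
      List.take_succ_cons, List.take_zero, List.length_cons, List.length_nil, List.cons_append,
      List.nil_append, List.map_cons, List.map_nil, List.sum_cons, List.sum_nil, zero_add,
      add_zero, Nat.reduceAdd, Fin.isValue, Fin.reduceEq, Fin.reduceAdd, ↓reduceIte, bar_bar, mul_zero,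
      one_mul, neg_mul, mul_one]
  | source12Turn =>
    rcases t with _ | ⟨x, _ | ⟨y, _ | ⟨w, t⟩⟩⟩ <;> simp at ht
    obtain ⟨hx, hy⟩ := ht
    obtain ⟨a, rfl⟩ := entry_edge.1 hx
    obtain ⟨c, rfl⟩ := entry_edge.1 hy
    rcases fin3 a with rfl | rfl | rfl <;> rcases fin3 c with rfl | rfl | rfl <;>
      simp only [ev_cons, ev_nil, out, Piece.bot, List.drop_zero, List.drop_succ_cons,
      List.take_succ_cons, List.take_zero, List.length_cons, List.length_nil, List.cons_append,
      List.nil_append, List.map_cons, List.map_nil, List.sum_cons, List.sum_nil, zero_add,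
      add_zero, Nat.reduceAdd, Fin.isValue, Fin.reduceEq, Fin.reduceAdd, ↓reduceIte, bar_bar, mul_zero,
      one_mul, neg_mul, mul_one]
  | source21Turn =>
    rcases t with _ | ⟨x, _ | ⟨y, _ | ⟨w, t⟩⟩⟩ <;> simp at ht
    obtain ⟨hx, hy⟩ := ht
    obtain ⟨a, rfl⟩ := entry_edge.1 hx
    obtain ⟨c, rfl⟩ := entry_edge.1 hy
    rcases fin3 a with rfl | rfl | rfl <;> rcases fin3 c with rfl | rfl | rfl <;>
      simp only [ev_cons, ev_nil, out, Piece.bot, List.drop_zero, List.drop_succ_cons,
      List.take_succ_cons, List.take_zero, List.length_cons, List.length_nil, List.cons_append,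
      List.nil_append, List.map_cons, List.map_nil, List.sum_cons, List.sum_nil, zero_add,
      add_zero, Nat.reduceAdd, Fin.isValue, Fin.reduceEq, Fin.reduceAdd, ↓reduceIte, bar_bar, mul_zero,
      one_mul, neg_mul, mul_one]

end Pool.Agent.V7H46.SL3
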