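import Pool.Agent.V7H46.SL3.Check

/-!
# The evaluation respects the skein relations
-/

set_option autoImplicit false

namespace Pool.Agent.V7H46.SL3

open Entry Piece

variable (P : Par)

lemma ycube (b : Bool) (y : ℂ) (hy : y = if b then P.z else P.z⁻¹) :
    y ^ 3 = P.g ∧ y ≠ 0 := by
  have hz := P.z_ne
  have h6 := P.hz
  cases b
  · simp only [Bool.false_eq_true, if_false] at hy
    rw [hy, Par.g]
    refine ⟨?_, inv_ne_zero hz⟩
    field_simp
    exact h6.symm
  · simp only [if_true] at hy
    rw [hy]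
    exact ⟨rfl, hz⟩

lemma ysq (b : Bool) (y : ℂ) (hy : y = if b then P.z else P.z⁻¹) : y⁻¹ = P.g * y ^ 2 := by
  obtain ⟨h3, h0⟩ := ycube P b y hy
  have hg := P.hg
  rw [← h3] at hg ⊢
  field_simp
  linear_combination -hg

lemma yinv (b : Bool) (y : ℂ) (hy : y = if b then P.z else P.z⁻¹) : y⁻¹ ^ 2 = P.g * y := by
  obtain ⟨h3, h0⟩ := ycube P b y hy
  have hg := P.hg
  rw [← h3] at hg ⊢
  field_simp
  linear_combination -hg

lemma lt_sign : lt.sign = 1 := rfl
lemma hv_sign : hv.sign = -1 := rfl

lemma t_eq (b : Bool) (y : ℂ) (hy : y = if b then P.z else P.z⁻¹) :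
    (if b then P.t⁻¹ else P.t) = y ^ 2 ∧ (if b then P.t else P.t⁻¹) = P.g * y := by
  have hz := P.z_ne
  have h6 := P.hz
  cases b
  · simp only [Bool.false_eq_true, if_false] at hy ⊢
    rw [hy, Par.t, Par.g]
    constructor
    · field_simp
      exact h6
    · field_simp
      linear_combination -h6
  · simp only [if_true] at hy ⊢
    rw [hy, Par.t, Par.g]
    constructor
    · field_simp
      linear_combination -h6
    · ring

lemma wt_ll (b : Bool) (y : ℂ) (hy : y = if b then P.z else P.z⁻¹) (a c : Fin 3) :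
    wt P b (.edge lt a) (.edge lt c) = y ^ 2 := by
  rw [← (t_eq P b y hy).1]
  cases b <;> simp [wt, lt_sign]

lemma wt_hh (b : Bool) (y : ℂ) (hy : y = if b then P.z else P.z⁻¹) (a c : Fin 3) :
    wt P b (.edge hv a) (.edge hv c) = y ^ 2 := by
  rw [← (t_eq P b y hy).1]
  cases b <;> simp [wt, hv_sign]

lemma wt_lh' (b : Bool) (y : ℂ) (hy : y = if b then P.z else P.z⁻¹) (a c : Fin 3) :
    wt P b (.edge lt a) (.edge hv c) = P.g * y := by
  rw [← (t_eq P b y hy).2]
  cases b <;> simp [wt, hv_sign, lt_sign]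

lemma wt_hl' (b : Bool) (y : ℂ) (hy : y = if b then P.z else P.z⁻¹) (a c : Fin 3) :
    wt P b (.edge hv a) (.edge lt c) = P.g * y := by
  rw [← (t_eq P b y hy).2]
  cases b <;> simp [wt, hv_sign, lt_sign]

lemma q2 : qtwo (P.z ^ 3) = 2 * P.g := by
  have hz := P.z_ne
  have h6 := P.hz
  rw [qtwo, Par.g]
  field_simp
  linear_combination -h6

lemma q3 : qthree (P.z ^ 3) = 3 := by
  have hz := P.z_ne
  have h6 := P.hz
  rw [qthree]
  field_simp
  linear_combination (P.z ^ 6 - 1) * h6

set_option linter.unusedSimpArgs false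
set_option linter.unusedTactic false
set_option linter.unreachableTactic false
set_option linter.unusedVariables false

lemma skein_ev {o o' : List Entry} {R : List (ℂ × Word)} (h : Skein P.z o o' R) (t : List St)
    (ht : t.map St.entry = o) (f : List St → ℂ) (r : List St) :
    (R.map fun x => x.1 * ev P x.2 f (t ++ r)).sum = 0 := by
  have hgc : P.g = 1 ∨ P.g = -1 := mul_self_eq_one_iff.1 P.hg
  rcases hgc with hg1 | hg1 <;> cases h with
  | cross11 b y hy =>
    rcases t with _ | ⟨x, _ | ⟨y, _ | ⟨w, t⟩⟩⟩ <;> simp at ht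
    obtain ⟨hx, hy'⟩ := ht
    obtain ⟨a, rfl⟩ := entry_edge.1 hx
    obtain ⟨c, rfl⟩ := entry_edge.1 hy'
    have y2 := ysq P b y hy
    have y3 := yinv P b y hy
    rcases fin3 a with rfl | rfl | rfl <;>
    rcases fin3 c with rfl | rfl | rfl <;>
    simp only [ev_cons, ev_nil, out, Piece.bot, List.drop_zero, List.drop_succ_cons,
      List.take_succ_cons, List.take_zero, List.length_cons, List.length_nil, List.cons_append,
      List.nil_append, List.map_cons, List.map_nil, List.sum_cons, List.sum_nil, zero_add,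
      add_zero, Nat.reduceAdd, Fin.isValue, Fin.reduceEq, Fin.reduceAdd, ↓reduceIte, bar_bar, mul_zero,
      one_mul, neg_mul, mul_one, hg1, wt_ll P b y hy, y2] <;> ring
  | cross22 b y hy =>
    rcases t with _ | ⟨x, _ | ⟨y, _ | ⟨w, t⟩⟩⟩ <;> simp at ht
    obtain ⟨hx, hy'⟩ := ht
    obtain ⟨a, rfl⟩ := entry_edge.1 hx
    obtain ⟨c, rfl⟩ := entry_edge.1 hy'
    have y2 := ysq P b y hy
    have y3 := yinv P b y hy
    rcases fin3 a with rfl | rfl | rfl <;>
    rcases fin3 c with rfl | rfl | rfl <;>
    simp only [ev_cons, ev_nil, out, Piece.bot, List.drop_zero, List.drop_succ_cons,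
      List.take_succ_cons, List.take_zero, List.length_cons, List.length_nil, List.cons_append,
      List.nil_append, List.map_cons, List.map_nil, List.sum_cons, List.sum_nil, zero_add,
      add_zero, Nat.reduceAdd, Fin.isValue, Fin.reduceEq, Fin.reduceAdd, ↓reduceIte, bar_bar, mul_zero,
      one_mul, neg_mul, mul_one, hg1, wt_hh P b y hy, y2] <;> ring
  | cross12 b y hy =>
    rcases t with _ | ⟨x, _ | ⟨y, _ | ⟨w, t⟩⟩⟩ <;> simp at ht
    obtain ⟨hx, hy'⟩ := ht
    obtain ⟨a, rfl⟩ := entry_edge.1 hx
    obtain ⟨c, rfl⟩ := entry_edge.1 hy'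
    have y2 := ysq P b y hy
    have y3 := yinv P b y hy
    rcases fin3 a with rfl | rfl | rfl <;>
    rcases fin3 c with rfl | rfl | rfl <;>
    simp only [ev_cons, ev_nil, out, Piece.bot, List.drop_zero, List.drop_succ_cons,
      List.take_succ_cons, List.take_zero, List.length_cons, List.length_nil, List.cons_append,
      List.nil_append, List.map_cons, List.map_nil, List.sum_cons, List.sum_nil, zero_add,
      add_zero, Nat.reduceAdd, Fin.isValue, Fin.reduceEq, Fin.reduceAdd, ↓reduceIte, bar_bar, mul_zero,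
      one_mul, neg_mul, mul_one, hg1, wt_lh' P b y hy, y3] <;> ring
  | cross21 b y hy =>
    rcases t with _ | ⟨x, _ | ⟨y, _ | ⟨w, t⟩⟩⟩ <;> simp at ht
    obtain ⟨hx, hy'⟩ := ht
    obtain ⟨a, rfl⟩ := entry_edge.1 hx
    obtain ⟨c, rfl⟩ := entry_edge.1 hy'
    have y2 := ysq P b y hy
    have y3 := yinv P b y hy
    rcases fin3 a with rfl | rfl | rfl <;>
    rcases fin3 c with rfl | rfl | rfl <;>
    simp only [ev_cons, ev_nil, out, Piece.bot, List.drop_zero, List.drop_succ_cons,
      List.take_succ_cons, List.take_zero, List.length_cons, List.length_nil, List.cons_append,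
      List.nil_append, List.map_cons, List.map_nil, List.sum_cons, List.sum_nil, zero_add,
      add_zero, Nat.reduceAdd, Fin.isValue, Fin.reduceEq, Fin.reduceAdd, ↓reduceIte, bar_bar, mul_zero,
      one_mul, neg_mul, mul_one, hg1, wt_hl' P b y hy, y3] <;> ring
  | circle s =>
    rcases t with _ | ⟨x, t⟩ <;> simp at ht
    simp only [ev_cons, ev_nil, out, Piece.bot, List.drop_zero, List.drop_succ_cons,
      List.take_succ_cons, List.take_zero, List.length_cons, List.length_nil, List.cons_append,
      List.nil_append, List.map_cons, List.map_nil, List.sum_cons, List.sum_nil, zero_add,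
      add_zero, Nat.reduceAdd, Fin.isValue, Fin.reduceEq, Fin.reduceAdd, ↓reduceIte, bar_bar, mul_zero,
      one_mul, neg_mul, mul_one, hg1, q3] <;> ring
  | bigon =>
    rcases t with _ | ⟨x, _ | ⟨y, t⟩⟩ <;> simp at ht
    obtain ⟨a, rfl⟩ := entry_edge.1 ht
    rcases fin3 a with rfl | rfl | rfl <;>
    simp only [ev_cons, ev_nil, out, Piece.bot, List.drop_zero, List.drop_succ_cons,
      List.take_succ_cons, List.take_zero, List.length_cons, List.length_nil, List.cons_append,
      List.nil_append, List.map_cons, List.map_nil, List.sum_cons, List.sum_nil, zero_add,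
      add_zero, Nat.reduceAdd, Fin.isValue, Fin.reduceEq, Fin.reduceAdd, ↓reduceIte, bar_bar, mul_zero,
      one_mul, neg_mul, mul_one, hg1, q2] <;> ring
  | bigonRight =>
    rcases t with _ | ⟨x, _ | ⟨y, t⟩⟩ <;> simp at ht
    obtain ⟨a, rfl⟩ := entry_edge.1 ht
    rcases fin3 a with rfl | rfl | rfl <;>
    simp only [ev_cons, ev_nil, out, Piece.bot, List.drop_zero, List.drop_succ_cons,
      List.take_succ_cons, List.take_zero, List.length_cons, List.length_nil, List.cons_append,
      List.nil_append, List.map_cons, List.map_nil, List.sum_cons, List.sum_nil, zero_add,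
      add_zero, Nat.reduceAdd, Fin.isValue, Fin.reduceEq, Fin.reduceAdd, ↓reduceIte, bar_bar, mul_zero,
      one_mul, neg_mul, mul_one, hg1, q2] <;> ring
  | bigonLeft =>
    rcases t with _ | ⟨x, _ | ⟨y, t⟩⟩ <;> simp at ht
    obtain ⟨a, rfl⟩ := entry_edge.1 ht
    rcases fin3 a with rfl | rfl | rfl <;>
    simp only [ev_cons, ev_nil, out, Piece.bot, List.drop_zero, List.drop_succ_cons,
      List.take_succ_cons, List.take_zero, List.length_cons, List.length_nil, List.cons_append,
      List.nil_append, List.map_cons, List.map_nil, List.sum_cons, List.sum_nil, zero_add,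
      add_zero, Nat.reduceAdd, Fin.isValue, Fin.reduceEq, Fin.reduceAdd, ↓reduceIte, bar_bar, mul_zero,
      one_mul, neg_mul, mul_one, hg1, q2] <;> ring
  | tagSink12 =>
    rcases t with _ | ⟨x, _ | ⟨y, _ | ⟨w, t⟩⟩⟩ <;> simp at ht
    obtain ⟨hx, hy'⟩ := ht
    obtain ⟨a, rfl⟩ := entry_edge.1 hx
    obtain ⟨c, rfl⟩ := entry_edge.1 hy'
    rcases fin3 a with rfl | rfl | rfl <;>
    rcases fin3 c with rfl | rfl | rfl <;>
    simp only [ev_cons, ev_nil, out, Piece.bot, List.drop_zero, List.drop_succ_cons,
      List.take_succ_cons, List.take_zero, List.length_cons, List.length_nil, List.cons_append,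
      List.nil_append, List.map_cons, List.map_nil, List.sum_cons, List.sum_nil, zero_add,
      add_zero, Nat.reduceAdd, Fin.isValue, Fin.reduceEq, Fin.reduceAdd, ↓reduceIte, bar_bar, mul_zero,
      one_mul, neg_mul, mul_one, hg1] <;> ring
  | tagSink21 =>
    rcases t with _ | ⟨x, _ | ⟨y, _ | ⟨w, t⟩⟩⟩ <;> simp at ht
    obtain ⟨hx, hy'⟩ := ht
    obtain ⟨a, rfl⟩ := entry_edge.1 hx
    obtain ⟨c, rfl⟩ := entry_edge.1 hy'
    rcases fin3 a with rfl | rfl | rfl <;>
    rcases fin3 c with rfl | rfl | rfl <;>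
    simp only [ev_cons, ev_nil, out, Piece.bot, List.drop_zero, List.drop_succ_cons,
      List.take_succ_cons, List.take_zero, List.length_cons, List.length_nil, List.cons_append,
      List.nil_append, List.map_cons, List.map_nil, List.sum_cons, List.sum_nil, zero_add,
      add_zero, Nat.reduceAdd, Fin.isValue, Fin.reduceEq, Fin.reduceAdd, ↓reduceIte, bar_bar, mul_zero,
      one_mul, neg_mul, mul_one, hg1] <;> ring
  | tagSource12 =>
    rcases t with _ | ⟨x, t⟩ <;> simp at ht
    simp only [ev_cons, ev_nil, out, Piece.bot, List.drop_zero, List.drop_succ_cons,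
      List.take_succ_cons, List.take_zero, List.length_cons, List.length_nil, List.cons_append,
      List.nil_append, List.map_cons, List.map_nil, List.sum_cons, List.sum_nil, zero_add,
      add_zero, Nat.reduceAdd, Fin.isValue, Fin.reduceEq, Fin.reduceAdd, ↓reduceIte, bar_bar, mul_zero,
      one_mul, neg_mul, mul_one, hg1] <;> ring
  | tagSource21 =>
    rcases t with _ | ⟨x, t⟩ <;> simp at ht
    simp only [ev_cons, ev_nil, out, Piece.bot, List.drop_zero, List.drop_succ_cons,
      List.take_succ_cons, List.take_zero, List.length_cons, List.length_nil, List.cons_append,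
      List.nil_append, List.map_cons, List.map_nil, List.sum_cons, List.sum_nil, zero_add,
      add_zero, Nat.reduceAdd, Fin.isValue, Fin.reduceEq, Fin.reduceAdd, ↓reduceIte, bar_bar, mul_zero,
      one_mul, neg_mul, mul_one, hg1] <;> ring
  | cancelRight1 =>
    rcases t with _ | ⟨x, _ | ⟨y, t⟩⟩ <;> simp at ht
    obtain ⟨a, rfl⟩ := entry_edge.1 ht
    rcases fin3 a with rfl | rfl | rfl <;>
    simp only [ev_cons, ev_nil, out, Piece.bot, List.drop_zero, List.drop_succ_cons,
      List.take_succ_cons, List.take_zero, List.length_cons, List.length_nil, List.cons_append,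
      List.nil_append, List.map_cons, List.map_nil, List.sum_cons, List.sum_nil, zero_add,
      add_zero, Nat.reduceAdd, Fin.isValue, Fin.reduceEq, Fin.reduceAdd, ↓reduceIte, bar_bar, mul_zero,
      one_mul, neg_mul, mul_one, hg1] <;> ring
  | cancelRight2 =>
    rcases t with _ | ⟨x, _ | ⟨y, t⟩⟩ <;> simp at ht
    obtain ⟨a, rfl⟩ := entry_edge.1 ht
    rcases fin3 a with rfl | rfl | rfl <;>
    simp only [ev_cons, ev_nil, out, Piece.bot, List.drop_zero, List.drop_succ_cons,
      List.take_succ_cons, List.take_zero, List.length_cons, List.length_nil, List.cons_append,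
      List.nil_append, List.map_cons, List.map_nil, List.sum_cons, List.sum_nil, zero_add,
      add_zero, Nat.reduceAdd, Fin.isValue, Fin.reduceEq, Fin.reduceAdd, ↓reduceIte, bar_bar, mul_zero,
      one_mul, neg_mul, mul_one, hg1] <;> ring
  | cancelLeft1 =>
    rcases t with _ | ⟨x, _ | ⟨y, t⟩⟩ <;> simp at ht
    obtain ⟨a, rfl⟩ := entry_edge.1 ht
    rcases fin3 a with rfl | rfl | rfl <;>
    simp only [ev_cons, ev_nil, out, Piece.bot, List.drop_zero, List.drop_succ_cons,
      List.take_succ_cons, List.take_zero, List.length_cons, List.length_nil, List.cons_append,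
      List.nil_append, List.map_cons, List.map_nil, List.sum_cons, List.sum_nil, zero_add,
      add_zero, Nat.reduceAdd, Fin.isValue, Fin.reduceEq, Fin.reduceAdd, ↓reduceIte, bar_bar, mul_zero,
      one_mul, neg_mul, mul_one, hg1] <;> ring
  | cancelLeft2 =>
    rcases t with _ | ⟨x, _ | ⟨y, t⟩⟩ <;> simp at ht
    obtain ⟨a, rfl⟩ := entry_edge.1 ht
    rcases fin3 a with rfl | rfl | rfl <;>
    simp only [ev_cons, ev_nil, out, Piece.bot, List.drop_zero, List.drop_succ_cons,
      List.take_succ_cons, List.take_zero, List.length_cons, List.length_nil, List.cons_append,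
      List.nil_append, List.map_cons, List.map_nil, List.sum_cons, List.sum_nil, zero_add,
      add_zero, Nat.reduceAdd, Fin.isValue, Fin.reduceEq, Fin.reduceAdd, ↓reduceIte, bar_bar, mul_zero,
      one_mul, neg_mul, mul_one, hg1] <;> ring
  | tagCircle12 =>
    rcases t with _ | ⟨x, t⟩ <;> simp at ht
    simp only [ev_cons, ev_nil, out, Piece.bot, List.drop_zero, List.drop_succ_cons,
      List.take_succ_cons, List.take_zero, List.length_cons, List.length_nil, List.cons_append,
      List.nil_append, List.map_cons, List.map_nil, List.sum_cons, List.sum_nil, zero_add,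
      add_zero, Nat.reduceAdd, Fin.isValue, Fin.reduceEq, Fin.reduceAdd, ↓reduceIte, bar_bar, mul_zero,
      one_mul, neg_mul, mul_one, hg1, q3] <;> ring
  | tagCircle21 =>
    rcases t with _ | ⟨x, t⟩ <;> simp at ht
    simp only [ev_cons, ev_nil, out, Piece.bot, List.drop_zero, List.drop_succ_cons,
      List.take_succ_cons, List.take_zero, List.length_cons, List.length_nil, List.cons_append,
      List.nil_append, List.map_cons, List.map_nil, List.sum_cons, List.sum_nil, zero_add,
      add_zero, Nat.reduceAdd, Fin.isValue, Fin.reduceEq, Fin.reduceAdd, ↓reduceIte, bar_bar, mul_zero,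
      one_mul, neg_mul, mul_one, hg1, q3] <;> ring
  | migrateSink =>
    rcases t with _ | ⟨x, _ | ⟨y, _ | ⟨w, _ | ⟨v, t⟩⟩⟩⟩ <;> simp at ht
    obtain ⟨hx, hy', hw⟩ := ht
    obtain ⟨a, rfl⟩ := entry_edge.1 hx
    obtain ⟨c, rfl⟩ := entry_edge.1 hy'
    obtain ⟨d, rfl⟩ := entry_edge.1 hw
    rcases fin3 a with rfl | rfl | rfl <;>
    rcases fin3 c with rfl | rfl | rfl <;>
    rcases fin3 d with rfl | rfl | rfl <;>
    simp only [ev_cons, ev_nil, out, Piece.bot, List.drop_zero, List.drop_succ_cons,
      List.take_succ_cons, List.take_zero, List.length_cons, List.length_nil, List.cons_append,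
      List.nil_append, List.map_cons, List.map_nil, List.sum_cons, List.sum_nil, zero_add,
      add_zero, Nat.reduceAdd, Fin.isValue, Fin.reduceEq, Fin.reduceAdd, ↓reduceIte, bar_bar, mul_zero,
      one_mul, neg_mul, mul_one, hg1] <;> ring
  | migrateSource =>
    rcases t with _ | ⟨x, t⟩ <;> simp at ht
    simp only [ev_cons, ev_nil, out, Piece.bot, List.drop_zero, List.drop_succ_cons,
      List.take_succ_cons, List.take_zero, List.length_cons, List.length_nil, List.cons_append,
      List.nil_append, List.map_cons, List.map_nil, List.sum_cons, List.sum_nil, zero_add,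
      add_zero, Nat.reduceAdd, Fin.isValue, Fin.reduceEq, Fin.reduceAdd, ↓reduceIte, bar_bar, mul_zero,
      one_mul, neg_mul, mul_one, hg1] <;> ring
  | ladderSink12 =>
    rcases t with _ | ⟨x, _ | ⟨y, _ | ⟨w, t⟩⟩⟩ <;> simp at ht
    obtain ⟨hx, hy'⟩ := ht
    obtain ⟨a, rfl⟩ := entry_edge.1 hx
    obtain ⟨c, rfl⟩ := entry_edge.1 hy'
    rcases fin3 a with rfl | rfl | rfl <;>
    rcases fin3 c with rfl | rfl | rfl <;>
    simp only [ev_cons, ev_nil, out, Piece.bot, List.drop_zero, List.drop_succ_cons,
      List.take_succ_cons, List.take_zero, List.length_cons, List.length_nil, List.cons_append,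
      List.nil_append, List.map_cons, List.map_nil, List.sum_cons, List.sum_nil, zero_add,
      add_zero, Nat.reduceAdd, Fin.isValue, Fin.reduceEq, Fin.reduceAdd, ↓reduceIte, bar_bar, mul_zero,
      one_mul, neg_mul, mul_one, hg1, q2] <;> ring
  | ladderSink21 =>
    rcases t with _ | ⟨x, _ | ⟨y, _ | ⟨w, t⟩⟩⟩ <;> simp at ht
    obtain ⟨hx, hy'⟩ := ht
    obtain ⟨a, rfl⟩ := entry_edge.1 hx
    obtain ⟨c, rfl⟩ := entry_edge.1 hy'
    rcases fin3 a with rfl | rfl | rfl <;>
    rcases fin3 c with rfl | rfl | rfl <;>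
    simp only [ev_cons, ev_nil, out, Piece.bot, List.drop_zero, List.drop_succ_cons,
      List.take_succ_cons, List.take_zero, List.length_cons, List.length_nil, List.cons_append,
      List.nil_append, List.map_cons, List.map_nil, List.sum_cons, List.sum_nil, zero_add,
      add_zero, Nat.reduceAdd, Fin.isValue, Fin.reduceEq, Fin.reduceAdd, ↓reduceIte, bar_bar, mul_zero,
      one_mul, neg_mul, mul_one, hg1, q2] <;> ring
  | ladderSource12 =>
    rcases t with _ | ⟨x, t⟩ <;> simp at ht
    simp only [ev_cons, ev_nil, out, Piece.bot, List.drop_zero, List.drop_succ_cons,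
      List.take_succ_cons, List.take_zero, List.length_cons, List.length_nil, List.cons_append,
      List.nil_append, List.map_cons, List.map_nil, List.sum_cons, List.sum_nil, zero_add,
      add_zero, Nat.reduceAdd, Fin.isValue, Fin.reduceEq, Fin.reduceAdd, ↓reduceIte, bar_bar, mul_zero,
      one_mul, neg_mul, mul_one, hg1, q2] <;> ring
  | ladderSource21 =>
    rcases t with _ | ⟨x, t⟩ <;> simp at ht
    simp only [ev_cons, ev_nil, out, Piece.bot, List.drop_zero, List.drop_succ_cons,
      List.take_succ_cons, List.take_zero, List.length_cons, List.length_nil, List.cons_append,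
      List.nil_append, List.map_cons, List.map_nil, List.sum_cons, List.sum_nil, zero_add,
      add_zero, Nat.reduceAdd, Fin.isValue, Fin.reduceEq, Fin.reduceAdd, ↓reduceIte, bar_bar, mul_zero,
      one_mul, neg_mul, mul_one, hg1, q2] <;> ring
  | square21 =>
    rcases t with _ | ⟨x, _ | ⟨y, _ | ⟨w, t⟩⟩⟩ <;> simp at ht
    obtain ⟨hx, hy'⟩ := ht
    obtain ⟨a, rfl⟩ := entry_edge.1 hx
    obtain ⟨c, rfl⟩ := entry_edge.1 hy'
    rcases fin3 a with rfl | rfl | rfl <;>
    rcases fin3 c with rfl | rfl | rfl <;>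
    simp only [ev_cons, ev_nil, out, Piece.bot, List.drop_zero, List.drop_succ_cons,
      List.take_succ_cons, List.take_zero, List.length_cons, List.length_nil, List.cons_append,
      List.nil_append, List.map_cons, List.map_nil, List.sum_cons, List.sum_nil, zero_add,
      add_zero, Nat.reduceAdd, Fin.isValue, Fin.reduceEq, Fin.reduceAdd, ↓reduceIte, bar_bar, mul_zero,
      one_mul, neg_mul, mul_one, hg1] <;> ring
  | square12 =>
    rcases t with _ | ⟨x, _ | ⟨y, _ | ⟨w, t⟩⟩⟩ <;> simp at ht
    obtain ⟨hx, hy'⟩ := ht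
    obtain ⟨a, rfl⟩ := entry_edge.1 hx
    obtain ⟨c, rfl⟩ := entry_edge.1 hy'
    rcases fin3 a with rfl | rfl | rfl <;>
    rcases fin3 c with rfl | rfl | rfl <;>
    simp only [ev_cons, ev_nil, out, Piece.bot, List.drop_zero, List.drop_succ_cons,
      List.take_succ_cons, List.take_zero, List.length_cons, List.length_nil, List.cons_append,
      List.nil_append, List.map_cons, List.map_nil, List.sum_cons, List.sum_nil, zero_add,
      add_zero, Nat.reduceAdd, Fin.isValue, Fin.reduceEq, Fin.reduceAdd, ↓reduceIte, bar_bar, mul_zero,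
      one_mul, neg_mul, mul_one, hg1] <;> ring
  | square22 =>
    rcases t with _ | ⟨x, _ | ⟨y, _ | ⟨w, t⟩⟩⟩ <;> simp at ht
    obtain ⟨hx, hy'⟩ := ht
    obtain ⟨a, rfl⟩ := entry_edge.1 hx
    obtain ⟨c, rfl⟩ := entry_edge.1 hy'
    rcases fin3 a with rfl | rfl | rfl <;>
    rcases fin3 c with rfl | rfl | rfl <;>
    simp only [ev_cons, ev_nil, out, Piece.bot, List.drop_zero, List.drop_succ_cons,
      List.take_succ_cons, List.take_zero, List.length_cons, List.length_nil, List.cons_append,
      List.nil_append, List.map_cons, List.map_nil, List.sum_cons, List.sum_nil, zero_add,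
      add_zero, Nat.reduceAdd, Fin.isValue, Fin.reduceEq, Fin.reduceAdd, ↓reduceIte, bar_bar, mul_zero,
      one_mul, neg_mul, mul_one, hg1] <;> ring

end Pool.Agent.V7H46.SL3
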