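import Mathlib

/-!
# The skein algebra of `SL_3` of the sphere with three punctures

The surface `S` is the sphere with three points removed, that is, the plane `ℝ × ℝ` with two points
`p_0`, `p_1` removed (the third puncture is at infinity). The thickened surface `S × [0,1]` is
`ℝ × ℝ × [0,1]` with two vertical segments, the poles `p_j × [0,1]`, removed. Webs in `S × [0,1]` are
drawn by projecting them to the vertical plane (first and third coordinate), together with the two
poles; the second coordinate is the depth, so that an edge of a web may pass in front of a pole or
behind it. The multiplication of the skein algebra puts one web above the other; for these drawings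
it is the concatenation of words.
-/

set_option autoImplicit false

namespace Pool.Agent.V7H46.SL3

/-- The weights `1, 2` of the edges of the webs for `SL_3`. -/
inductive Weight
  | one
  | two
  deriving DecidableEq

/-- A piece of an edge: its weight and its direction (`up = true` if it is directed upwards). -/
structure Strand where
  weight : Weight
  up : Bool
  deriving DecidableEq

/-- The same edge, passed in the other direction. -/
def Strand.bar (s : Strand) : Strand := ⟨s.weight, !s.up⟩

/-- What a horizontal level of a drawing meets: one of the two poles or an edge of the web. -/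
inductive Entry
  | pole (j : Fin 2)
  | edge (s : Strand)
  deriving DecidableEq

/-- An edge of weight `1`, directed upwards. -/
def lt : Strand := ⟨.one, true⟩

/-- An edge of weight `2`, directed upwards. -/
def hv : Strand := ⟨.two, true⟩

/-- The elementary pieces of a drawing, read upwards.
* `cup s`, `cap s`: a local minimum or maximum of an edge; `s` is its left end.
* `cross b e f`: `e` comes from below on the left and goes to the right, `f` comes from below on the
  right and goes to the left. If `b = true`, then `e` passes in front of `f`, otherwise behind `f`.
* `merge`, `split`: the vertices where two edges of weight `1` become one of weight `2`, and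
  conversely (all edges directed upwards).
* `sink12`, `sink21`, `source12`, `source21`: the tags, that is, the vertices where an edge of
  weight `1` and an edge of weight `2` end or start together. The two numbers are the weights from
  left to right; all edges are directed upwards. -/
inductive Piece
  | cup (s : Strand)
  | cap (s : Strand)
  | cross (b : Bool) (e f : Entry)
  | merge
  | split
  | sink12
  | sink21
  | source12
  | source21
  deriving DecidableEq

open Entry Piece

/-- What a piece meets at its bottom, from left to right. -/
def Piece.bot : Piece → List Entry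
  | cup _ => []
  | cap s => [edge s, edge s.bar]
  | cross _ e f => [e, f]
  | merge => [edge lt, edge lt]
  | split => [edge hv]
  | sink12 => [edge lt, edge hv]
  | sink21 => [edge hv, edge lt]
  | source12 => []
  | source21 => []

/-- What a piece meets at its top, from left to right. -/
def Piece.top : Piece → List Entry
  | cup s => [edge s, edge s.bar]
  | cap _ => []
  | cross _ e f => [f, e]
  | merge => [edge hv]
  | split => [edge lt, edge lt]
  | sink12 => []
  | sink21 => []
  | source12 => [edge lt, edge hv]
  | source21 => [edge hv, edge lt]

/-- The poles are vertical and do not cross each other. -/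
def Piece.Ok : Piece → Prop
  | cross _ (pole _) (pole _) => False
  | _ => True

/-- Drawings are words, read from bottom to top: the level `(k, p)` consists of `k` vertical lines
(edges or poles), the piece `p`, and vertical lines to the right of it. -/
abbrev Word := List (ℕ × Piece)

/-- `Typed o w o'`: the word `w` is a drawing that meets `o` at its bottom and `o'` at its top. -/
inductive Typed : List Entry → Word → List Entry → Prop
  | nil (o : List Entry) : Typed o [] o
  | cons (u v : List Entry) (p : Piece) (w : Word) (o' : List Entry) :
      p.Ok → Typed (u ++ p.top ++ v) w o' → Typed (u ++ p.bot ++ v) ((u.length, p) :: w) o'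

/-- The word moved to the right by `k` lines. -/
def shift (k : ℕ) (w : Word) : Word := w.map fun x => (x.1 + k, x.2)

/-- **Isotopy.** `Move o o' X Y`: the drawings `X` and `Y`, both with `o` at the bottom and `o'` at
the top, differ by one of the local moves for framed webs. Framings are given by the plane of the
drawing (blackboard framing). Here `e`, `f`, `g` are poles or edges. -/
inductive Move : List Entry → List Entry → Word → Word → Prop
  /-- two pieces next to each other exchange their heights -/
  | exchange (p q : Piece) (m : List Entry) (hp : p.Ok) (hq : q.Ok) :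
      Move (p.bot ++ m ++ q.bot) (p.top ++ m ++ q.top)
        [(0, p), (p.top.length + m.length, q)] [(p.bot.length + m.length, q), (0, p)]
  /-- straightening of an edge -/
  | zigzagRight (s : Strand) : Move [edge s] [edge s] [(0, cup s), (1, cap s.bar)] []
  | zigzagLeft (s : Strand) : Move [edge s] [edge s] [(1, cup s.bar), (0, cap s)] []
  /-- sliding of a crossing over a minimum or a maximum -/
  | cupSlide (b : Bool) (s : Strand) (e : Entry) : Move [e] [edge s, e, edge s.bar]
      [(0, cup s), (1, cross b (edge s.bar) e)] [(1, cup s), (0, cross (!b) e (edge s))]
  | capSlide (b : Bool) (s : Strand) (e : Entry) : Move [edge s, e, edge s.bar] [e]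
      [(1, cross b e (edge s.bar)), (0, cap s)] [(0, cross (!b) (edge s) e), (1, cap s)]
  /-- Reidemeister's first move for framed links: a kink on the right is moved to the left -/
  | curl (b : Bool) (s : Strand) : Move [edge s] [edge s]
      [(1, cup s), (0, cross b (edge s) (edge s)), (1, cap s)]
      [(0, cup s.bar), (1, cross b (edge s) (edge s)), (0, cap s.bar)]
  /-- Reidemeister's second move -/
  | reidemeister2 (b : Bool) (e f : Entry) (h : (cross b e f).Ok) : Move [e, f] [e, f]
      [(0, cross b e f), (0, cross (!b) f e)] []
  /-- Reidemeister's third move; of the eight choices of the crossings, the two which do not come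
  from three lines in space are excluded -/
  | reidemeister3 (a b c : Bool) (e f g : Entry) (h : ¬ (a = c ∧ b ≠ a))
      (hef : (cross a e f).Ok) (heg : (cross b e g).Ok) (hfg : (cross c f g).Ok) :
      Move [e, f, g] [g, f, e]
        [(0, cross a e f), (1, cross b e g), (0, cross c f g)]
        [(1, cross c f g), (0, cross b e g), (1, cross a e f)]
  /-- a line passes in front of a vertex or behind it -/
  | mergeSlide (b : Bool) (e : Entry) : Move [e, edge lt, edge lt] [edge hv, e]
      [(1, merge), (0, cross b e (edge hv))]
      [(0, cross b e (edge lt)), (1, cross b e (edge lt)), (0, merge)]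
  | splitSlide (b : Bool) (e : Entry) : Move [e, edge hv] [edge lt, edge lt, e]
      [(1, split), (0, cross b e (edge lt)), (1, cross b e (edge lt))]
      [(0, cross b e (edge hv)), (0, split)]
  | sink12Slide (b : Bool) (e : Entry) : Move [e, edge lt, edge hv] [e]
      [(1, sink12)] [(0, cross b e (edge lt)), (1, cross b e (edge hv)), (0, sink12)]
  | sink21Slide (b : Bool) (e : Entry) : Move [e, edge hv, edge lt] [e]
      [(1, sink21)] [(0, cross b e (edge hv)), (1, cross b e (edge lt)), (0, sink21)]
  | source12Slide (b : Bool) (e : Entry) : Move [e] [edge lt, edge hv, e]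
      [(1, source12), (0, cross b e (edge lt)), (1, cross b e (edge hv))] [(0, source12)]
  | source21Slide (b : Bool) (e : Entry) : Move [e] [edge hv, edge lt, e]
      [(1, source21), (0, cross b e (edge hv)), (1, cross b e (edge lt))] [(0, source21)]
  /-- a vertex is turned once around: its edges are bent to the right or to the left -/
  | mergeTurn : Move [edge hv.bar] [edge lt.bar, edge lt.bar]
      [(1, cup lt), (2, cup lt), (1, merge), (0, cap hv.bar)]
      [(0, cup lt.bar), (1, cup lt.bar), (2, merge), (2, cap hv)]
  | splitTurn : Move [edge lt.bar, edge lt.bar] [edge hv.bar]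
      [(2, cup hv), (2, split), (1, cap lt.bar), (0, cap lt.bar)]
      [(0, cup hv.bar), (1, split), (2, cap lt), (1, cap lt)]
  | sink12Turn : Move [] [edge hv.bar, edge lt.bar]
      [(0, cup lt), (1, cup hv), (0, sink12)] [(0, cup hv.bar), (1, cup lt.bar), (2, sink12)]
  | sink21Turn : Move [] [edge lt.bar, edge hv.bar]
      [(0, cup hv), (1, cup lt), (0, sink21)] [(0, cup lt.bar), (1, cup hv.bar), (2, sink21)]
  | source12Turn : Move [edge hv.bar, edge lt.bar] []
      [(2, source12), (1, cap lt.bar), (0, cap hv.bar)] [(0, source12), (1, cap hv), (0, cap lt)]
  | source21Turn : Move [edge lt.bar, edge hv.bar] []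
      [(2, source21), (1, cap hv.bar), (0, cap lt.bar)] [(0, source21), (1, cap lt), (0, cap hv)]

/-- `[2] = q + q⁻¹` -/
noncomputable def qtwo (q : ℂ) : ℂ := q + q⁻¹

/-- `[3] = q² + 1 + q⁻²` -/
noncomputable def qthree (q : ℂ) : ℂ := q ^ 2 + 1 + q⁻¹ ^ 2

/-- **The skein relations** of Cautis, Kamnitzer and Morrison for `SL_3`, with `z = q^(1/3)`, that is
`q = z³`. `Skein z o o' R`: the combination of drawings `R`, all with `o` at the bottom and `o'` at
the top, is zero. The crossing formulas are `(-1)^(k + k l) q^(k - k l / 3)` times the sum of the
ladders with coefficients `(-q)^(-b)`, and the same formulas with `z⁻¹` for the other crossings. -/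
inductive Skein (z : ℂ) : List Entry → List Entry → List (ℂ × Word) → Prop
  /-- crossings: in front if `b = true`, with `y = z`; behind if `b = false`, with `y = z⁻¹` -/
  | cross11 (b : Bool) (y : ℂ) (hy : y = if b then z else z⁻¹) :
      Skein z [edge lt, edge lt] [edge lt, edge lt]
        [(1, [(0, cross b (edge lt) (edge lt))]), (-y ^ 2, []), (y⁻¹, [(0, merge), (0, split)])]
  | cross22 (b : Bool) (y : ℂ) (hy : y = if b then z else z⁻¹) :
      Skein z [edge hv, edge hv] [edge hv, edge hv]
        [(1, [(0, cross b (edge hv) (edge hv))]), (-y ^ 2, []),
          (y⁻¹, [(0, split), (1, sink12), (1, source12), (0, merge)])]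
  | cross12 (b : Bool) (y : ℂ) (hy : y = if b then z else z⁻¹) :
      Skein z [edge lt, edge hv] [edge hv, edge lt]
        [(1, [(0, cross b (edge lt) (edge hv))]), (y, [(1, split), (0, merge)]),
          (-y⁻¹ ^ 2, [(0, sink12), (0, source21)])]
  | cross21 (b : Bool) (y : ℂ) (hy : y = if b then z else z⁻¹) :
      Skein z [edge hv, edge lt] [edge lt, edge hv]
        [(1, [(0, cross b (edge hv) (edge lt))]), (y, [(0, split), (1, merge)]),
          (-y⁻¹ ^ 2, [(0, sink21), (0, source12)])]
  /-- closed circles -/
  | circle (s : Strand) : Skein z [] []
      [(1, [(0, cup s), (0, cap s)]), (-qthree (z ^ 3), [])]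
  /-- bigons -/
  | bigon : Skein z [edge hv] [edge hv] [(1, [(0, split), (0, merge)]), (-qtwo (z ^ 3), [])]
  | bigonRight : Skein z [edge lt] [edge lt]
      [(1, [(1, cup lt), (0, merge), (0, split), (1, cap lt)]), (-qtwo (z ^ 3), [])]
  | bigonLeft : Skein z [edge lt] [edge lt]
      [(1, [(0, cup lt.bar), (1, merge), (1, split), (0, cap lt.bar)]), (-qtwo (z ^ 3), [])]
  /-- a tag may be put on the other side of its vertex (the sign `(-1)^(k (3 - k))` is `1`) -/
  | tagSink12 : Skein z [edge lt, edge hv] []
      [(1, [(0, sink12)]), (-1, [(0, cup hv.bar), (1, sink21), (0, cap hv.bar)])]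
  | tagSink21 : Skein z [edge hv, edge lt] []
      [(1, [(0, sink21)]), (-1, [(0, cup lt.bar), (1, sink12), (0, cap lt.bar)])]
  | tagSource12 : Skein z [] [edge lt, edge hv]
      [(1, [(0, source12)]), (-1, [(0, cup lt), (1, source21), (2, cap lt)])]
  | tagSource21 : Skein z [] [edge hv, edge lt]
      [(1, [(0, source21)]), (-1, [(0, cup hv), (1, source12), (2, cap hv)])]
  /-- two tags cancel -/
  | cancelRight1 : Skein z [edge lt] [edge lt] [(1, [(0, source12), (1, sink21)]), (-1, [])]
  | cancelRight2 : Skein z [edge hv] [edge hv] [(1, [(0, source21), (1, sink12)]), (-1, [])]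
  | cancelLeft1 : Skein z [edge lt] [edge lt] [(1, [(1, source21), (0, sink12)]), (-1, [])]
  | cancelLeft2 : Skein z [edge hv] [edge hv] [(1, [(1, source12), (0, sink21)]), (-1, [])]
  /-- closed edges with two tags -/
  | tagCircle12 : Skein z [] [] [(1, [(0, source12), (0, sink12)]), (-qthree (z ^ 3), [])]
  | tagCircle21 : Skein z [] [] [(1, [(0, source21), (0, sink21)]), (-qthree (z ^ 3), [])]
  /-- a tag moves through a vertex (associativity for `1 + 1 + 1 = 3`) -/
  | migrateSink : Skein z [edge lt, edge lt, edge lt] []
      [(1, [(0, merge), (0, sink21)]), (-1, [(1, merge), (0, sink12)])]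
  | migrateSource : Skein z [] [edge lt, edge lt, edge lt]
      [(1, [(0, source21), (0, split)]), (-1, [(0, source12), (1, split)])]
  /-- squares with two rungs in the same direction -/
  | ladderSink12 : Skein z [edge lt, edge hv] []
      [(1, [(1, split), (0, merge), (0, sink21)]), (-qtwo (z ^ 3), [(0, sink12)])]
  | ladderSink21 : Skein z [edge hv, edge lt] []
      [(1, [(0, split), (1, merge), (0, sink12)]), (-qtwo (z ^ 3), [(0, sink21)])]
  | ladderSource12 : Skein z [] [edge lt, edge hv]
      [(1, [(0, source21), (0, split), (1, merge)]), (-qtwo (z ^ 3), [(0, source12)])]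
  | ladderSource21 : Skein z [] [edge hv, edge lt]
      [(1, [(0, source12), (1, split), (0, merge)]), (-qtwo (z ^ 3), [(0, source21)])]
  /-- squares with two rungs in opposite directions -/
  | square21 : Skein z [edge hv, edge lt] [edge hv, edge lt]
      [(1, [(0, split), (1, merge), (1, split), (0, merge)]), (-1, []),
        (-1, [(0, sink21), (0, source21)])]
  | square12 : Skein z [edge lt, edge hv] [edge lt, edge hv]
      [(1, [(1, split), (0, merge), (0, split), (1, merge)]), (-1, []),
        (-1, [(0, sink12), (0, source12)])]
  | square22 : Skein z [edge hv, edge hv] [edge hv, edge hv]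
      [(1, [(0, split), (1, sink12), (1, source12), (0, merge)]),
        (-1, [(1, split), (0, sink21), (0, source21), (1, merge)])]

/-- The bottom and the top of a web in the thickened surface: just the two poles. -/
def base : List Entry := [pole 0, pole 1]

lemma Typed.append {o o' o'' : List Entry} {w w' : Word} (h : Typed o w o') (h' : Typed o' w' o'') :
    Typed o (w ++ w') o'' := by
  induction h with
  | nil o => exact h'
  | cons u v p w o' hp _ ih => exact Typed.cons u v p _ _ hp (ih h')

/-- The drawings of webs in `S × [0,1]`. -/
@[ext] structure Diagram where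
  word : Word
  typed : Typed base word base

instance : Monoid Diagram where
  mul a b := ⟨a.word ++ b.word, a.typed.append b.typed⟩
  one := ⟨[], Typed.nil _⟩
  mul_assoc _ _ _ := Diagram.ext (List.append_assoc _ _ _)
  one_mul _ := Diagram.ext (List.nil_append _)
  mul_one _ := Diagram.ext (List.append_nil _)

open Classical in
/-- The word `w` as an element of the algebra of formal combinations of webs (zero if `w` is not a
web in `S × [0,1]`). -/
noncomputable def elem (w : Word) : MonoidAlgebra ℂ Diagram :=
  if h : Typed base w base then MonoidAlgebra.of ℂ Diagram ⟨w, h⟩ else 0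

/-- The relations of the skein algebra: a local move or a skein relation is applied somewhere inside
a web, with the lines `u` to the left and `v` to the right, the drawing `A` below and `B` above. -/
inductive Rel (z : ℂ) : MonoidAlgebra ℂ Diagram → MonoidAlgebra ℂ Diagram → Prop
  | isotopy {o o' : List Entry} {X Y : Word} (h : Move o o' X Y) (u v : List Entry) (A B : Word)
      (hA : Typed base A (u ++ o ++ v)) (hB : Typed (u ++ o' ++ v) B base) :
      Rel z (elem (A ++ shift u.length X ++ B)) (elem (A ++ shift u.length Y ++ B))
  | skein {o o' : List Entry} {R : List (ℂ × Word)} (h : Skein z o o' R) (u v : List Entry)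
      (A B : Word) (hA : Typed base A (u ++ o ++ v)) (hB : Typed (u ++ o' ++ v) B base) :
      Rel z ((R.map fun x => x.1 • elem (A ++ shift u.length x.2 ++ B)).sum) 0

/-- The skein algebra `𝒮^q_{SL_3}(S)` of the sphere with three punctures, with `z = q^(1/3)`. -/
abbrev SkeinAlgebra (z : ℂ) := RingQuot (Rel z)

/-- The class of a web in the skein algebra. -/
noncomputable def cls (z : ℂ) (w : Word) : SkeinAlgebra z := RingQuot.mkAlgHom ℂ (Rel z) (elem w)

/-! ### Puncture skeins -/

/-- A loop around the pole `p_0`. -/
def loop0 (s : Strand) : Word :=
  [(0, cup s), (1, cross true (edge s.bar) (pole 0)), (0, cross false (edge s) (pole 0)),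
    (1, cap s)]

/-- A loop around the pole `p_1`. -/
def loop1 (s : Strand) : Word :=
  [(1, cup s), (2, cross true (edge s.bar) (pole 1)), (1, cross false (edge s) (pole 1)),
    (2, cap s)]

/-- A loop around both poles, that is, around the puncture at infinity. -/
def loopInfinity (s : Strand) : Word :=
  [(0, cup s), (1, cross true (edge s.bar) (pole 0)), (2, cross true (edge s.bar) (pole 1)),
    (0, cross false (edge s) (pole 0)), (1, cross false (edge s) (pole 1)), (2, cap s)]

/-- The puncture skeins `[P_i]`: small loops around the three punctures, of weights `1`, `2` (and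
with both directions). -/
def punctureSkeins (z : ℂ) : Set (SkeinAlgebra z) :=
  {x | ∃ s : Strand, x = cls z (loop0 s) ∨ x = cls z (loop1 s) ∨ x = cls z (loopInfinity s)}

/-! ### Threading along knots -/

/-- The word is a drawing of a link: no vertices, and all edges have weight `1` (the weights will be
replaced). -/
def IsLink (w : Word) : Prop :=
  Typed base w base ∧ ∀ x ∈ w, (∃ b, x.2 = cup ⟨.one, b⟩) ∨ (∃ b, x.2 = cap ⟨.one, b⟩) ∨
    ∃ b e f, x.2 = cross b e f ∧ (∀ s, e = edge s → s.weight = .one) ∧
      ∀ s, f = edge s → s.weight = .one

/-- Colourings of the components of a link by two colours: given the colours at the bottom of a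
piece, the list of possible colours at its top. -/
def paintPiece : Piece → List Bool → List (List Bool)
  | cup _, [] => [[false, false], [true, true]]
  | cap _, [x, y] => if x = y then [[]] else []
  | cross _ _ _, [x, y] => [[y, x]]
  | _, _ => []

/-- The colourings of a link by two colours (a pole counts as a component with the colour given at
the bottom). -/
def paint : Word → List Bool → List (List Bool)
  | [], l => [l]
  | (k, p) :: w, l =>
    ((paintPiece p ((l.drop k).take p.bot.length)).map fun t =>
      paint w (l.take k ++ t ++ l.drop (k + p.bot.length))).flatten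

/-- The word is a drawing of a knot: a link with exactly two colourings by two colours, that is, with
exactly one component. -/
def IsKnot (w : Word) : Prop := IsLink w ∧ (paint w [false, false]).length = 2

/-- Parallel copies of an edge with the weights `c`. -/
def copies (c : List Weight) : Entry → List Entry
  | pole j => [pole j]
  | edge ⟨_, true⟩ => c.map fun a => edge ⟨a, true⟩
  | edge ⟨_, false⟩ => (c.map fun a => edge ⟨a, false⟩).reverse

/-- The line `e` passes all lines of a list, from the left to the right. -/
def passOne (b : Bool) (e : Entry) : List Entry → Word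
  | [] => []
  | f :: o => (0, cross b e f) :: shift 1 (passOne b e o)

/-- All lines of the first list pass all lines of the second list. -/
def passAll (b : Bool) : List Entry → List Entry → Word
  | [], _ => []
  | e :: o, r => shift 1 (passAll b o r) ++ passOne b e r

/-- Nested minima, the left ends being the given list. -/
def cups : List Strand → Word
  | [] => []
  | s :: l => (0, cup s) :: shift 1 (cups l)

/-- Nested maxima, the left ends being the given list. -/
def caps : List Strand → Word
  | [] => []
  | s :: l => shift 1 (caps l) ++ [(0, cap s)]

/-- The colours of parallel copies of an edge with the given direction. -/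
def copyStrands (c : List Weight) (up : Bool) : List Strand :=
  if up then c.map fun a => ⟨a, true⟩ else (c.map fun a => (⟨a, false⟩ : Strand)).reverse

/-- The parallel copies of a piece of a link. -/
def cablePiece (c : List Weight) : Piece → Word
  | cup s => cups (copyStrands c s.up)
  | cap s => caps (copyStrands c s.up)
  | cross b e f => passAll b (copies c e) (copies c f)
  | _ => []

/-- The lines of the parallel copies of a drawing. -/
def cableLines (c : List Weight) (o : List Entry) : List Entry := o.flatMap (copies c)

/-- Parallel copies, with the weights `c`, of a link: of the drawing `w` with `o` at its bottom. -/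
def cable (c : List Weight) : List Entry → Word → Word
  | _, [] => []
  | o, (k, p) :: w => shift (cableLines c (o.take k)).length (cablePiece c p) ++
      cable c (o.take k ++ p.top ++ o.drop (k + p.bot.length)) w

/-- `L^[P]` for a polynomial `P` in `e_1`, `e_2`: for the monomial `e_1^i e_2^j`, take `i` parallel
copies of weight `1` and `j` copies of weight `2`. -/
noncomputable def thread (z : ℂ) (L : Word) (P : MvPolynomial (Fin 2) ℤ) : SkeinAlgebra z :=
  ∑ m ∈ P.support, ((P.coeff m : ℤ) : ℂ) •
    cls z (cable (List.replicate (m 0) .one ++ List.replicate (m 1) .two) base L)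

/-- `P` is the power elementary polynomial `P_3^{(n,i)}`: inserting the elementary symmetric
polynomials `E^{(1)}`, `E^{(2)}`, `E^{(3)}` in three variables, it becomes `E^{(i)}` of the `n`-th
powers of the variables. -/
def IsPowerElementary (n i : ℕ) (P : MvPolynomial (Fin 3) ℤ) : Prop :=
  MvPolynomial.aeval (fun j : Fin 3 => MvPolynomial.esymm (Fin 3) ℤ (j + 1)) P =
    MvPolynomial.aeval (fun j : Fin 3 => (MvPolynomial.X j : MvPolynomial (Fin 3) ℤ) ^ n)
      (MvPolynomial.esymm (Fin 3) ℤ i)

/-- The reduced polynomial `P(e_1, e_2, 1)`. -/
noncomputable def reduced (P : MvPolynomial (Fin 3) ℤ) : MvPolynomial (Fin 2) ℤ :=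
  MvPolynomial.aeval
    (![MvPolynomial.X 0, MvPolynomial.X 1, 1] : Fin 3 → MvPolynomial (Fin 2) ℤ) P

/-- The skeins obtained by threading the reduced power elementary polynomials
`P̂_3^{(n,i)}`, `i = 1, 2`, along framed knots. -/
def threadedSkeins (z : ℂ) (n : ℕ) : Set (SkeinAlgebra z) :=
  {x | ∃ (L : Word) (i : ℕ) (P : MvPolynomial (Fin 3) ℤ), IsKnot L ∧ (i = 1 ∨ i = 2) ∧
    IsPowerElementary n i P ∧ x = thread z L (reduced P)}

/-- The knot of weight `1` which passes in front of the pole `p_0` and behind the pole `p_1` to the
right, and back in front of `p_1` and behind `p_0` (an immersed figure eight around the two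
punctures `p_0`, `p_1`). -/
def eight : Word :=
  [(0, cup lt), (1, cross true (edge lt.bar) (pole 0)), (2, cross false (edge lt.bar) (pole 1)),
    (0, cross false (edge lt) (pole 0)), (1, cross true (edge lt) (pole 1)), (2, cap lt)]

end Pool.Agent.V7H46.SL3
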