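import Pool.Agent.V7H46.SL3.Types

/-!
# A calculus for equalities in the skein algebra
-/

set_option autoImplicit false

namespace Pool.Agent.V7H46.SL3

open Entry Piece

variable (z : ℂ)

/-- `X` may be replaced by `c • Y` anywhere in a web. -/
def Eqv (c : ℂ) (o o' : List Entry) (X Y : Word) : Prop :=
  Typed o X o' ∧ Typed o Y o' ∧ ∀ (u v : List Entry) (A B : Word),
    Typed base A (u ++ o ++ v) → Typed (u ++ o' ++ v) B base →
      cls z (A ++ shift u.length X ++ B) = c • cls z (A ++ shift u.length Y ++ B)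

variable {z}

lemma Eqv.typed_left {c : ℂ} {o o' : List Entry} {X Y : Word} (h : Eqv z c o o' X Y) :
    Typed o X o' := h.1

lemma Eqv.typed_right {c : ℂ} {o o' : List Entry} {X Y : Word} (h : Eqv z c o o' X Y) :
    Typed o Y o' := h.2.1

lemma Eqv.refl {o o' : List Entry} {X : Word} (h : Typed o X o') : Eqv z 1 o o' X X :=
  ⟨h, h, fun _ _ _ _ _ _ => by rw [one_smul]⟩

lemma Eqv.symm {c : ℂ} {o o' : List Entry} {X Y : Word} (hc : c ≠ 0) (h : Eqv z c o o' X Y) :
    Eqv z c⁻¹ o o' Y X :=
  ⟨h.2.1, h.1, fun u v A B hA hB => by rw [h.2.2 u v A B hA hB, smul_smul, inv_mul_cancel₀ hc,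
    one_smul]⟩

lemma Eqv.symm1 {o o' : List Entry} {X Y : Word} (h : Eqv z 1 o o' X Y) :
    Eqv z 1 o o' Y X := by
  simpa using h.symm one_ne_zero

lemma Eqv.trans {c d : ℂ} {o o' : List Entry} {X Y W : Word} (h : Eqv z c o o' X Y)
    (h' : Eqv z d o o' Y W) : Eqv z (c * d) o o' X W :=
  ⟨h.1, h'.2.1, fun u v A B hA hB => by rw [h.2.2 u v A B hA hB, h'.2.2 u v A B hA hB, smul_smul]⟩

lemma Eqv.trans1 {o o' : List Entry} {X Y W : Word} (h : Eqv z 1 o o' X Y)
    (h' : Eqv z 1 o o' Y W) : Eqv z 1 o o' X W := by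
  simpa using h.trans h'

lemma Eqv.comp {c d : ℂ} {o o' o'' : List Entry} {X Y X' Y' : Word} (h : Eqv z c o o' X Y)
    (h' : Eqv z d o' o'' X' Y') : Eqv z (c * d) o o'' (X ++ X') (Y ++ Y') := by
  refine ⟨h.1.append h'.1, h.2.1.append h'.2.1, fun u v A B hA hB => ?_⟩
  have h1 := h.2.2 u v A (shift u.length X' ++ B) hA ((h'.1.whisker u v).append hB)
  have h2 := h'.2.2 u v (A ++ shift u.length Y) B (hA.append (h.2.1.whisker u v)) hB
  rw [shift_append, shift_append]
  have e1 : A ++ (shift u.length X ++ shift u.length X') ++ B =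
      A ++ shift u.length X ++ (shift u.length X' ++ B) := by simp
  have e2 : A ++ shift u.length Y ++ (shift u.length X' ++ B) =
      A ++ shift u.length Y ++ shift u.length X' ++ B := by simp
  have e3 : A ++ (shift u.length Y ++ shift u.length Y') ++ B =
      A ++ shift u.length Y ++ shift u.length Y' ++ B := by simp
  rw [e1, h1, e2, h2, e3, smul_smul]

lemma Eqv.comp1 {o o' o'' : List Entry} {X Y X' Y' : Word} (h : Eqv z 1 o o' X Y)
    (h' : Eqv z 1 o' o'' X' Y') : Eqv z 1 o o'' (X ++ X') (Y ++ Y') := by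
  simpa using h.comp h'

lemma Eqv.whisker {c : ℂ} {o o' : List Entry} {X Y : Word} (h : Eqv z c o o' X Y)
    (a b : List Entry) :
    Eqv z c (a ++ o ++ b) (a ++ o' ++ b) (shift a.length X) (shift a.length Y) := by
  refine ⟨h.1.whisker a b, h.2.1.whisker a b, fun u v A B hA hB => ?_⟩
  have h1 := h.2.2 (u ++ a) (b ++ v) A B (by simpa using hA) (by simpa using hB)
  rw [shift_shift, shift_shift]
  rw [List.length_append, add_comm] at h1
  exact h1

lemma Eqv.left {c : ℂ} {o o' : List Entry} {X Y : Word} (h : Eqv z c o o' X Y)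
    (a : List Entry) : Eqv z c (a ++ o) (a ++ o') (shift a.length X) (shift a.length Y) := by
  simpa using h.whisker a []

lemma Eqv.right {c : ℂ} {o o' : List Entry} {X Y : Word} (h : Eqv z c o o' X Y)
    (b : List Entry) : Eqv z c (o ++ b) (o' ++ b) X Y := by
  simpa [shift_zero] using h.whisker [] b

lemma Eqv.of_move {o o' : List Entry} {X Y : Word} (h : Move o o' X Y) : Eqv z 1 o o' X Y :=
  ⟨(move_typed h).1, (move_typed h).2, fun u v A B hA hB => by
    rw [one_smul]
    exact RingQuot.mkAlgHom_rel ℂ (Rel.isotopy h u v A B hA hB)⟩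

/-- a skein relation, inserted -/
lemma cls_skein {o o' : List Entry} {R : List (ℂ × Word)} (h : Skein z o o' R)
    (u v : List Entry) (A B : Word) (hA : Typed base A (u ++ o ++ v))
    (hB : Typed (u ++ o' ++ v) B base) :
    (R.map fun x => x.1 • cls z (A ++ shift u.length x.2 ++ B)).sum = 0 := by
  have h1 := RingQuot.mkAlgHom_rel ℂ (Rel.skein h u v A B hA hB)
  rw [map_zero, map_list_sum, List.map_map] at h1
  rw [← h1]
  congr 1
  apply List.map_congr_left
  intro x _
  simp [cls]

/-- Replace a typed word in the middle. -/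
lemma Eqv.mid {c : ℂ} {o o₁ o₂ o' : List Entry} {X Y A B : Word} (hA : Typed o A o₁)
    (h : Eqv z c o₁ o₂ X Y) (hB : Typed o₂ B o') :
    Eqv z c o o' (A ++ X ++ B) (A ++ Y ++ B) := by
  simpa using ((Eqv.refl hA).comp h).comp (Eqv.refl hB)

lemma Eqv.mk1 {c : ℂ} {o o' : List Entry} {X Y : Word} (h : Eqv z c o o' X Y) (hc : c = 1) :
    Eqv z 1 o o' X Y := hc ▸ h

/-! ### Exchange of distant words -/

lemma exchange_piece (p q : Piece) (hp : p.Ok) (hq : q.Ok) (a b c d m : List Entry) :
    Eqv z 1 (a ++ p.bot ++ b ++ m ++ (c ++ q.bot ++ d)) (a ++ p.top ++ b ++ m ++ (c ++ q.top ++ d))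
      [(a.length, p), ((a ++ p.top ++ b ++ m ++ c).length, q)]
      [((a ++ p.bot ++ b ++ m ++ c).length, q), (a.length, p)] := by
  have h := (Eqv.of_move (z := z) (Move.exchange p q (b ++ m ++ c) hp hq)).whisker a d
  simp only [shift_cons, shift_nil] at h
  have e1 : 0 + a.length = a.length := by omega
  have e2 : p.top.length + (b ++ m ++ c).length + a.length =
      (a ++ p.top ++ b ++ m ++ c).length := by simp; omega
  have e3 : p.bot.length + (b ++ m ++ c).length + a.length =
      (a ++ p.bot ++ b ++ m ++ c).length := by simp; omega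
  have e4 : a ++ (p.bot ++ (b ++ m ++ c) ++ q.bot) ++ d =
      a ++ p.bot ++ b ++ m ++ (c ++ q.bot ++ d) := by simp
  have e5 : a ++ (p.top ++ (b ++ m ++ c) ++ q.top) ++ d =
      a ++ p.top ++ b ++ m ++ (c ++ q.top ++ d) := by simp
  rw [e1, e2, e3, e4, e5] at h
  exact h

/-- A piece on the left of a word. -/
lemma exchange_left (p : Piece) (hp : p.Ok) (a b m : List Entry) {r r' : List Entry} {Y : Word}
    (h : Typed r Y r') :
    Eqv z 1 (a ++ p.bot ++ b ++ m ++ r) (a ++ p.top ++ b ++ m ++ r')
      ([(a.length, p)] ++ shift (a ++ p.top ++ b ++ m).length Y)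
      (shift (a ++ p.bot ++ b ++ m).length Y ++ [(a.length, p)]) := by
  induction h with
  | nil o =>
    simp only [shift_nil, List.append_nil, List.nil_append]
    apply Eqv.refl
    have := Typed.cons a (b ++ m ++ o) p [] _ hp (Typed.nil _)
    simpa using this
  | cons c d q Y r' hq hY ih =>
    have h1 := exchange_piece (z := z) p q hp hq a b c d m
    have h2 : Typed (a ++ p.top ++ b ++ m ++ (c ++ q.top ++ d))
        (shift (a ++ p.top ++ b ++ m).length Y) (a ++ p.top ++ b ++ m ++ r') := hY.left _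
    have h3 := h1.comp1 (Eqv.refl h2)
    have h4 : Typed (a ++ p.bot ++ b ++ m ++ (c ++ q.bot ++ d))
        [((a ++ p.bot ++ b ++ m ++ c).length, q)]
        (a ++ p.bot ++ b ++ m ++ (c ++ q.top ++ d)) := by
      have := Typed.cons (a ++ p.bot ++ b ++ m ++ c) d q [] _ hq (Typed.nil _)
      simpa using this
    have h5 := (Eqv.refl (z := z) h4).comp1 ih
    have h6 : Eqv z 1 _ _ ([(a.length, p), ((a ++ p.top ++ b ++ m ++ c).length, q)] ++
        shift (a ++ p.top ++ b ++ m).length Y) ([((a ++ p.bot ++ b ++ m ++ c).length, q)] ++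
        (shift (a ++ p.bot ++ b ++ m).length Y ++ [(a.length, p)])) :=
      h3.trans1 (by simpa using h5)
    convert h6 using 1 <;> simp [shift_cons] <;> omega

/-- **Interchange.** -/
lemma interchange {o o' r r' : List Entry} {X Y : Word} (hX : Typed o X o') (hY : Typed r Y r')
    (m : List Entry) :
    Eqv z 1 (o ++ m ++ r) (o' ++ m ++ r') (X ++ shift (o' ++ m).length Y)
      (shift (o ++ m).length Y ++ X) := by
  induction hX with
  | nil o =>
    simp only [List.nil_append, List.append_nil]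
    exact Eqv.refl (by simpa using hY.left (o ++ m))
  | cons a b p X o' hp hX ih =>
    have h1 : Typed (a ++ p.bot ++ b ++ m ++ r) [(a.length, p)] (a ++ p.top ++ b ++ m ++ r) := by
      have := Typed.cons a (b ++ m ++ r) p [] _ hp (Typed.nil _)
      simpa using this
    have h2 := (Eqv.refl (z := z) h1).comp1 ih
    have h3 := exchange_left (z := z) p hp a b m hY
    have h4 : Typed (a ++ p.top ++ b ++ m ++ r') X (o' ++ m ++ r') := by
      have := hX.right (m ++ r')
      simpa using this
    have h5 := h3.comp1 (Eqv.refl h4)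
    rw [List.append_assoc [(a.length, p)]] at h5
    have h6 := h2.trans1 h5
    simpa only [List.append_assoc, List.cons_append, List.nil_append] using h6

end Pool.Agent.V7H46.SL3
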