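import Pool.Agent.V7H46.SL3.Defs

/-!
# The classical evaluation of webs, for `z = q^(1/3)` with `z⁶ = 1`
-/

set_option autoImplicit false

namespace Pool.Agent.V7H46.SL3

open Entry Piece

/-- A pole, or an edge with one of three colours. -/
inductive St
  | pole (j : Fin 2)
  | edge (s : Strand) (a : Fin 3)
  deriving DecidableEq

def St.entry : St → Entry
  | .pole j => .pole j
  | .edge s _ => .edge s

/-- `1` for weight `1` upwards and weight `2` downwards, `-1` otherwise. -/
def Strand.sign (s : Strand) : ℤ :=
  match s with
  | ⟨.one, true⟩ => 1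
  | ⟨.one, false⟩ => -1
  | ⟨.two, true⟩ => -1
  | ⟨.two, false⟩ => 1

lemma sign_bar (s : Strand) : s.bar.sign = -s.sign := by
  rcases s with ⟨w, u⟩
  cases w <;> cases u <;> rfl

lemma bar_bar (s : Strand) : s.bar.bar = s := by
  rcases s with ⟨w, u⟩
  simp [Strand.bar]

/-- The parameters of an evaluation: `z`, and for each pole a diagonal matrix of determinant `1`. -/
structure Par where
  z : ℂ
  hz : z ^ 6 = 1
  x : Fin 2 → Fin 3 → ℂ
  hx : ∀ j, x j 0 * x j 1 * x j 2 = 1

/-- the cube root of unity `z⁴` -/
noncomputable def Par.t (P : Par) : ℂ := P.z ^ 4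

/-- the sign `z³` -/
noncomputable def Par.g (P : Par) : ℂ := P.z ^ 3

variable (P : Par)

namespace Par

lemma z_ne : P.z ≠ 0 := by
  intro h
  have := P.hz
  rw [h] at this
  norm_num at this

lemma ht : P.t ^ 3 = 1 := by
  rw [Par.t]
  linear_combination (P.z ^ 6 + 1) * P.hz

lemma t_ne : P.t ≠ 0 := pow_ne_zero 4 P.z_ne

lemma hg : P.g * P.g = 1 := by
  rw [Par.g]
  linear_combination P.hz

lemma x_ne (j : Fin 2) (a : Fin 3) : P.x j a ≠ 0 := by
  intro h
  have := P.hx j
  fin_cases a <;> simp at h <;> rw [h] at this <;> simp at this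

end Par

/-- The coefficient of a crossing. -/
noncomputable def wt (b : Bool) : St → St → ℂ
  | .edge s _, .edge t _ => if b then P.t ^ (-(s.sign * t.sign)) else P.t ^ (s.sign * t.sign)
  | .edge s a, .pole j => if b then 1 else P.x j a ^ s.sign
  | .pole j, .edge s a => if b then P.x j a ^ (-s.sign) else 1
  | .pole _, .pole _ => 1

/-- The linear map of a piece. -/
noncomputable def out : Piece → List St → List (ℂ × List St)
  | cup s, [] => [(1, [.edge s 0, .edge s.bar 0]), (1, [.edge s 1, .edge s.bar 1]),
      (1, [.edge s 2, .edge s.bar 2])]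
  | cap _, [.edge _ a, .edge _ b] => if a = b then [(1, [])] else []
  | cross b _ _, [x, y] => [(wt P b x y, [y, x])]
  | merge, [.edge _ a, .edge _ b] =>
      if b = a + 1 then [(1, [.edge hv (a + 2)])] else
        if b = a + 2 then [(-1, [.edge hv (a + 1)])] else []
  | split, [.edge _ c] => [(P.g, [.edge lt (c + 1), .edge lt (c + 2)]),
      (-P.g, [.edge lt (c + 2), .edge lt (c + 1)])]
  | sink12, [.edge _ a, .edge _ b] => if a = b then [(1, [])] else []
  | sink21, [.edge _ a, .edge _ b] => if a = b then [(1, [])] else []
  | source12, [] => [(1, [.edge lt 0, .edge hv 0]), (1, [.edge lt 1, .edge hv 1]),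
      (1, [.edge lt 2, .edge hv 2])]
  | source21, [] => [(1, [.edge hv 0, .edge lt 0]), (1, [.edge hv 1, .edge lt 1]),
      (1, [.edge hv 2, .edge lt 2])]
  | _, _ => []

/-- The evaluation of a word. -/
noncomputable def ev : Word → (List St → ℂ) → List St → ℂ
  | [], f, s => f s
  | (k, p) :: w, f, s => ((out P p ((s.drop k).take p.bot.length)).map fun x =>
      x.1 * ev w f (s.take k ++ x.2 ++ s.drop (k + p.bot.length))).sum

lemma ev_nil (f : List St → ℂ) (s : List St) : ev P [] f s = f s := rfl

lemma ev_cons (k : ℕ) (p : Piece) (w : Word) (f : List St → ℂ) (s : List St) :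
    ev P ((k, p) :: w) f s = ((out P p ((s.drop k).take p.bot.length)).map fun x =>
      x.1 * ev P w f (s.take k ++ x.2 ++ s.drop (k + p.bot.length))).sum := rfl

lemma ev_append (A B : Word) (f : List St → ℂ) (s : List St) :
    ev P (A ++ B) f s = ev P A (ev P B f) s := by
  induction A generalizing s with
  | nil => rfl
  | cons x A ih =>
    obtain ⟨k, p⟩ := x
    simp only [List.cons_append, ev_cons]
    congr 1
    apply List.map_congr_left
    intro x _
    rw [ih]

lemma ev_shift (X : Word) (f : List St → ℂ) (u t : List St) :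
    ev P (shift u.length X) f (u ++ t) = ev P X (fun s => f (u ++ s)) t := by
  induction X generalizing t with
  | nil => rfl
  | cons x X ih =>
    obtain ⟨k, p⟩ := x
    have hs : shift u.length ((k, p) :: X) = (k + u.length, p) :: shift u.length X := rfl
    rw [hs, ev_cons, ev_cons]
    have h1 : (u ++ t).drop (k + u.length) = t.drop k := by
      rw [List.drop_append, List.drop_eq_nil_of_le (by omega)]
      simp
    have h2 : (u ++ t).take (k + u.length) = u ++ t.take k := by
      rw [List.take_append, List.take_of_length_le (by omega)]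
      simp
    have h3 : (u ++ t).drop (k + u.length + p.bot.length) = t.drop (k + p.bot.length) := by
      rw [List.drop_append, List.drop_eq_nil_of_le (by omega)]
      simp
      congr 1
      omega
    rw [h1, h2, h3]
    congr 1
    apply List.map_congr_left
    intro x _
    rw [List.append_assoc, List.append_assoc, ih, List.append_assoc]

/-- Outputs have the right type. -/
lemma out_type (p : Piece) (t : List St) (ht : t.map St.entry = p.bot) (x : ℂ × List St)
    (hx : x ∈ out P p t) : x.2.map St.entry = p.top := by
  cases p with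
  | cup s =>
    obtain rfl : t = [] := by simpa [Piece.bot] using ht
    simp only [out, List.mem_cons, List.not_mem_nil, or_false] at hx
    rcases hx with rfl | rfl | rfl <;> rfl
  | cap s =>
    rcases t with _ | ⟨a, _ | ⟨b, _ | ⟨c, t⟩⟩⟩ <;> simp [Piece.bot] at ht
    obtain ⟨ha, hb⟩ := ht
    cases a <;> cases b <;> simp [out] at hx ⊢
    obtain ⟨-, rfl⟩ := hx
    rfl
  | cross b e f =>
    rcases t with _ | ⟨a, _ | ⟨b, _ | ⟨c, t⟩⟩⟩ <;> simp [Piece.bot] at ht
    obtain ⟨ha, hb⟩ := ht
    simp [out] at hx
    subst hx
    simp [Piece.top, ha, hb]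
  | merge =>
    rcases t with _ | ⟨a, _ | ⟨b, _ | ⟨c, t⟩⟩⟩ <;> simp [Piece.bot] at ht
    obtain ⟨ha, hb⟩ := ht
    cases a <;> cases b <;> simp [out] at hx ⊢
    split_ifs at hx <;> simp at hx <;> subst hx <;> rfl
  | split =>
    rcases t with _ | ⟨a, _ | ⟨b, t⟩⟩ <;> simp [Piece.bot] at ht
    cases a <;> simp [out] at hx ⊢
    rcases hx with rfl | rfl <;> rfl
  | sink12 =>
    rcases t with _ | ⟨a, _ | ⟨b, _ | ⟨c, t⟩⟩⟩ <;> simp [Piece.bot] at ht
    obtain ⟨ha, hb⟩ := ht
    cases a <;> cases b <;> simp [out] at hx ⊢
    obtain ⟨-, rfl⟩ := hx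
    rfl
  | sink21 =>
    rcases t with _ | ⟨a, _ | ⟨b, _ | ⟨c, t⟩⟩⟩ <;> simp [Piece.bot] at ht
    obtain ⟨ha, hb⟩ := ht
    cases a <;> cases b <;> simp [out] at hx ⊢
    obtain ⟨-, rfl⟩ := hx
    rfl
  | source12 =>
    obtain rfl : t = [] := by simpa [Piece.bot] using ht
    simp only [out, List.mem_cons, List.not_mem_nil, or_false] at hx
    rcases hx with rfl | rfl | rfl <;> rfl
  | source21 =>
    obtain rfl : t = [] := by simpa [Piece.bot] using ht
    simp only [out, List.mem_cons, List.not_mem_nil, or_false] at hx
    rcases hx with rfl | rfl | rfl <;> rfl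

/-- The evaluation of a typed word depends only on the values at states of the type of its top. -/
lemma ev_congr {o o' : List Entry} {w : Word} (h : Typed o w o') (f g : List St → ℂ)
    (hfg : ∀ t : List St, t.map St.entry = o' → f t = g t) (s : List St)
    (hs : s.map St.entry = o) : ev P w f s = ev P w g s := by
  induction h generalizing s with
  | nil o => exact hfg s hs
  | cons u v p w o' hp _ ih =>
    obtain ⟨s₁, sv, rfl, h1, hv⟩ := List.map_eq_append_iff.1 hs
    obtain ⟨su, st, rfl, hu, ht⟩ := List.map_eq_append_iff.1 h1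
    have lu : u.length = su.length := by rw [← hu, List.length_map]
    have lt' : p.bot.length = st.length := by rw [← ht, List.length_map]
    rw [ev_cons, ev_cons]
    congr 1
    have e1 : ((su ++ st ++ sv).drop u.length).take p.bot.length = st := by
      rw [lu, lt', List.append_assoc, List.drop_left, List.take_left]
    have e2 : (su ++ st ++ sv).take u.length = su := by
      rw [lu, List.append_assoc, List.take_left]
    have e3 : (su ++ st ++ sv).drop (u.length + p.bot.length) = sv := by
      rw [lu, lt', ← List.length_append, List.drop_left]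
    rw [e1, e2, e3]
    apply List.map_congr_left
    intro x hx
    rw [ih hfg]
    simp only [List.map_append]
    rw [hu, hv, out_type P p st ht x hx]

lemma ev_smul (w : Word) (c : ℂ) (f : List St → ℂ) (s : List St) :
    ev P w (fun t => c * f t) s = c * ev P w f s := by
  induction w generalizing s with
  | nil => rfl
  | cons x w ih =>
    obtain ⟨k, p⟩ := x
    rw [ev_cons, ev_cons, ← List.sum_map_mul_left]
    congr 1
    apply List.map_congr_left
    intro x _
    rw [ih]
    ring

lemma ev_add (w : Word) (f g : List St → ℂ) (s : List St) :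
    ev P w (fun t => f t + g t) s = ev P w f s + ev P w g s := by
  induction w generalizing s with
  | nil => rfl
  | cons x w ih =>
    obtain ⟨k, p⟩ := x
    rw [ev_cons, ev_cons, ev_cons, ← List.sum_map_add]
    congr 1
    apply List.map_congr_left
    intro x _
    rw [ih]
    ring

lemma ev_zero (w : Word) (s : List St) : ev P w (fun _ => 0) s = 0 := by
  have := ev_smul P w 0 (fun _ => 0) s
  simpa using this

/-! ### The crossing coefficients -/

lemma wt_mul (b : Bool) (x y : St) : wt P b x y * wt P (!b) y x = 1 := by
  have hz := P.t_ne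
  cases x with
  | pole j =>
    cases y with
    | pole i => simp [wt]
    | edge s a =>
      have hx := zpow_ne_zero s.sign (P.x_ne j a)
      cases b <;> simp [wt, hx]
  | edge s a =>
    cases y with
    | pole i =>
      have hx := zpow_ne_zero s.sign (P.x_ne i a)
      cases b <;> simp [wt, hx]
    | edge t c =>
      cases b
      · simp only [wt, Bool.not_false, if_true, Bool.false_eq_true, if_false]
        rw [← zpow_add₀ hz, mul_comm t.sign]
        simp
      · simp only [wt, Bool.not_true, if_true, Bool.false_eq_true, if_false]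
        rw [← zpow_add₀ hz, mul_comm t.sign]
        simp

lemma wt_bar_left (b : Bool) (s : Strand) (a : Fin 3) (y : St) :
    wt P b (.edge s.bar a) y = wt P (!b) y (.edge s a) := by
  cases y with
  | pole j => cases b <;> simp [wt, sign_bar]
  | edge t c =>
    cases b
    · simp only [wt, sign_bar, Bool.not_false, if_true, Bool.false_eq_true, if_false]
      congr 1
      ring
    · simp only [wt, sign_bar, Bool.not_true, if_true, Bool.false_eq_true, if_false]
      congr 1
      ring

lemma wt_bar_right (b : Bool) (s : Strand) (a : Fin 3) (y : St) :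
    wt P b y (.edge s.bar a) = wt P (!b) (.edge s a) y := by
  cases y with
  | pole j => cases b <;> simp [wt, sign_bar]
  | edge t c =>
    cases b
    · simp only [wt, sign_bar, Bool.not_false, if_true, Bool.false_eq_true, if_false]
      congr 1
      ring
    · simp only [wt, sign_bar, Bool.not_true, if_true, Bool.false_eq_true, if_false]
      congr 1
      ring

/-- crossing with a heavy edge is crossing with the two light edges -/
lemma wt_merge (b : Bool) (y : St) (a : Fin 3) :
    wt P b y (.edge lt (a + 1)) * wt P b y (.edge lt (a + 2)) = wt P b y (.edge hv a) := by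
  have hz := P.t_ne
  have hz3 := P.ht
  cases y with
  | pole j =>
    have h0 := P.x_ne j 0
    have h1 := P.x_ne j 1
    have h2 := P.x_ne j 2
    have hx := P.hx j
    cases b
    · simp [wt]
    · fin_cases a
      · simp [wt, lt, hv, Strand.sign]
        field_simp
        linear_combination -hx
      · simp [wt, lt, hv, Strand.sign]
        field_simp
        linear_combination -hx
      · simp [wt, lt, hv, Strand.sign]
        field_simp
        linear_combination -hx
  | edge t c =>
    have key : ∀ n : ℤ, P.t ^ n * P.t ^ n = P.t ^ (-n) := by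
      intro n
      have h3 : (P.t ^ (3 : ℤ)) ^ n = 1 := by
        rw [show P.t ^ (3 : ℤ) = P.t ^ (3 : ℕ) by norm_cast, hz3, one_zpow]
      rw [← zpow_add₀ hz, ← mul_one (P.t ^ (-n)), ← h3, ← zpow_mul, ← zpow_add₀ hz]
      congr 1
      ring
    cases b
    · simp only [wt, lt, hv, Strand.sign, Bool.false_eq_true, if_false, mul_one, mul_neg]
      exact key _
    · simp only [wt, lt, hv, Strand.sign, if_true, mul_one, mul_neg, neg_neg]
      have := key (-t.sign)
      rwa [neg_neg] at this

end Pool.Agent.V7H46.SL3
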