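import Pool.Agent.V7H46.SL3.Functor

/-!
# Types of words
-/

set_option autoImplicit false

namespace Pool.Agent.V7H46.SL3

open Entry Piece

/-- A computable form of `Typed`. -/
def Run : List Entry → Word → List Entry → Prop
  | o, [], o' => o = o'
  | o, (k, p) :: w, o' => k ≤ o.length ∧ (o.drop k).take p.bot.length = p.bot ∧ p.Ok ∧
      Run (o.take k ++ p.top ++ o.drop (k + p.bot.length)) w o'

lemma run_of_typed {o o' : List Entry} {w : Word} (h : Typed o w o') : Run o w o' := by
  induction h with
  | nil o => exact rfl
  | cons u v p w o' hp _ ih =>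
    refine ⟨by simp, ?_, hp, ?_⟩
    · rw [List.append_assoc, List.drop_left, List.take_left]
    · have e1 : (u ++ p.bot ++ v).take u.length = u := by
        rw [List.append_assoc, List.take_left]
      have e2 : (u ++ p.bot ++ v).drop (u.length + p.bot.length) = v := by
        rw [← List.length_append, List.drop_left]
      rw [e1, e2]
      exact ih

lemma typed_of_run {o o' : List Entry} {w : Word} (h : Run o w o') : Typed o w o' := by
  induction w generalizing o with
  | nil =>
    have : o = o' := h
    rw [this]
    exact Typed.nil _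
  | cons x w ih =>
    obtain ⟨k, p⟩ := x
    obtain ⟨h1, h2, h3, h4⟩ := h
    have h5 := Typed.cons (o.take k) (o.drop (k + p.bot.length)) p w o' h3 (ih h4)
    rw [List.length_take, min_eq_left h1] at h5
    have e : o.take k ++ p.bot ++ o.drop (k + p.bot.length) = o := by
      conv_rhs => rw [← List.take_append_drop k o]
      rw [List.append_assoc]
      congr 1
      conv_rhs => rw [← List.take_append_drop p.bot.length (o.drop k)]
      rw [h2, List.drop_drop]
    rwa [e] at h5

lemma typed_iff_run {o o' : List Entry} {w : Word} : Typed o w o' ↔ Run o w o' :=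
  ⟨run_of_typed, typed_of_run⟩

lemma typed_cons {k : ℕ} {p : Piece} {w : Word} {u v o' : List Entry} (hk : u.length = k)
    (hp : p.Ok) (h : Typed (u ++ p.top ++ v) w o') : Typed (u ++ p.bot ++ v) ((k, p) :: w) o' := by
  subst hk
  exact Typed.cons u v p w o' hp h

lemma shift_nil (k : ℕ) : shift k [] = [] := rfl

lemma shift_cons (k j : ℕ) (p : Piece) (w : Word) :
    shift k ((j, p) :: w) = (j + k, p) :: shift k w := rfl

lemma shift_append (k : ℕ) (X Y : Word) : shift k (X ++ Y) = shift k X ++ shift k Y := by
  simp [shift]

lemma shift_shift (k l : ℕ) (X : Word) : shift k (shift l X) = shift (l + k) X := by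
  simp [shift, Function.comp_def, add_assoc]

lemma shift_zero (X : Word) : shift 0 X = X := by
  simp [shift]

/-- more lines on the left and on the right -/
lemma Typed.whisker {o o' : List Entry} {X : Word} (h : Typed o X o') (u v : List Entry) :
    Typed (u ++ o ++ v) (shift u.length X) (u ++ o' ++ v) := by
  induction h with
  | nil o => exact Typed.nil _
  | cons a b p w o' hp _ ih =>
    rw [shift_cons]
    have e : u ++ (a ++ p.bot ++ b) ++ v = (u ++ a) ++ p.bot ++ (b ++ v) := by simp
    rw [e]
    refine typed_cons (by simp [add_comm]) hp ?_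
    have e' : (u ++ a) ++ p.top ++ (b ++ v) = u ++ (a ++ p.top ++ b) ++ v := by simp
    rw [e']
    exact ih

lemma Typed.left {o o' : List Entry} {X : Word} (h : Typed o X o') (u : List Entry) :
    Typed (u ++ o) (shift u.length X) (u ++ o') := by
  simpa using h.whisker u []

lemma Typed.right {o o' : List Entry} {X : Word} (h : Typed o X o') (v : List Entry) :
    Typed (o ++ v) X (o' ++ v) := by
  simpa [shift_zero] using h.whisker [] v

lemma typed_det {o o₁ o₂ : List Entry} {w : Word} (h₁ : Typed o w o₁) (h₂ : Typed o w o₂) :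
    o₁ = o₂ := by
  rw [typed_iff_run] at h₁ h₂
  induction w generalizing o with
  | nil => exact h₁.symm.trans h₂
  | cons x w ih =>
    obtain ⟨k, p⟩ := x
    exact ih h₁.2.2.2 h₂.2.2.2

lemma move_typed {o o' : List Entry} {X Y : Word} (h : Move o o' X Y) :
    Typed o X o' ∧ Typed o Y o' := by
  cases h with
  | exchange p q m hp hq =>
    constructor
    · refine Typed.cons [] (m ++ q.bot) p _ _ hp ?_ |> fun h => by simpa using h
      have h1 := Typed.cons (p.top ++ m) [] q [] _ hq (Typed.nil _)
      simpa using h1
    · have h1 := Typed.cons [] (m ++ q.top) p [] _ hp (Typed.nil _)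
      have h2 := Typed.cons (p.bot ++ m) [] q [(0, p)] (p.top ++ m ++ q.top) hq
        (by simpa using h1)
      simpa using h2
  | zigzagRight s => constructor <;> rw [typed_iff_run] <;> simp [Run, Piece.bot, Piece.top, Piece.Ok, bar_bar]
  | zigzagLeft s => constructor <;> rw [typed_iff_run] <;> simp [Run, Piece.bot, Piece.top, Piece.Ok, bar_bar]
  | cupSlide b s e => constructor <;> rw [typed_iff_run] <;> simp [Run, Piece.bot, Piece.top, Piece.Ok, bar_bar]
  | capSlide b s e => constructor <;> rw [typed_iff_run] <;> simp [Run, Piece.bot, Piece.top, Piece.Ok, bar_bar]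
  | curl b s => constructor <;> rw [typed_iff_run] <;> simp [Run, Piece.bot, Piece.top, Piece.Ok, bar_bar]
  | reidemeister2 b e g hh =>
    have h2 : (cross (!b) g e).Ok := by cases e <;> cases g <;> simp_all [Piece.Ok]
    constructor <;> rw [typed_iff_run] <;> simp [Run, Piece.bot, Piece.top, hh, h2]
  | reidemeister3 a b c e g k h hef heg hfg =>
    constructor <;> rw [typed_iff_run] <;> simp [Run, Piece.bot, Piece.top, hef, heg, hfg]
  | mergeSlide b e => constructor <;> rw [typed_iff_run] <;> simp [Run, Piece.bot, Piece.top, Piece.Ok, bar_bar]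
  | splitSlide b e => constructor <;> rw [typed_iff_run] <;> simp [Run, Piece.bot, Piece.top, Piece.Ok, bar_bar]
  | sink12Slide b e => constructor <;> rw [typed_iff_run] <;> simp [Run, Piece.bot, Piece.top, Piece.Ok, bar_bar]
  | sink21Slide b e => constructor <;> rw [typed_iff_run] <;> simp [Run, Piece.bot, Piece.top, Piece.Ok, bar_bar]
  | source12Slide b e => constructor <;> rw [typed_iff_run] <;> simp [Run, Piece.bot, Piece.top, Piece.Ok, bar_bar]
  | source21Slide b e => constructor <;> rw [typed_iff_run] <;> simp [Run, Piece.bot, Piece.top, Piece.Ok, bar_bar]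
  | mergeTurn => constructor <;> rw [typed_iff_run] <;> simp [Run, Piece.bot, Piece.top, Piece.Ok, bar_bar]
  | splitTurn => constructor <;> rw [typed_iff_run] <;> simp [Run, Piece.bot, Piece.top, Piece.Ok, bar_bar]
  | sink12Turn => constructor <;> rw [typed_iff_run] <;> simp [Run, Piece.bot, Piece.top, Piece.Ok, bar_bar]
  | sink21Turn => constructor <;> rw [typed_iff_run] <;> simp [Run, Piece.bot, Piece.top, Piece.Ok, bar_bar]
  | source12Turn => constructor <;> rw [typed_iff_run] <;> simp [Run, Piece.bot, Piece.top, Piece.Ok, bar_bar]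
  | source21Turn => constructor <;> rw [typed_iff_run] <;> simp [Run, Piece.bot, Piece.top, Piece.Ok, bar_bar]

lemma skein_typed {z : ℂ} {o o' : List Entry} {R : List (ℂ × Word)} (h : Skein z o o' R) :
    ∀ x ∈ R, Typed o x.2 o' := by
  cases h <;> intro x hx <;> simp only [List.mem_cons, List.not_mem_nil, or_false] at hx <;>
    first
    | (rcases hx with rfl | rfl | rfl <;> rw [typed_iff_run] <;> simp [Run, Piece.bot, Piece.top, Piece.Ok, bar_bar])
    | (rcases hx with rfl | rfl <;> rw [typed_iff_run] <;> simp [Run, Piece.bot, Piece.top, Piece.Ok, bar_bar])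

end Pool.Agent.V7H46.SL3
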