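import Pool.Agent.V7H46.SL3.Check2
import Pool.Agent.V7H46.SL3.Types

/-!
# The evaluation as a homomorphism from the skein algebra
-/

set_option autoImplicit false

namespace Pool.Agent.V7H46.SL3

open Entry Piece

variable (P : Par)

/-- The only state of the two poles. -/
def sb : List St := [.pole 0, .pole 1]

lemma sb_entry : sb.map St.entry = base := rfl

lemma eq_sb {t : List St} (ht : t.map St.entry = base) : t = sb := by
  rcases t with _ | ⟨x, _ | ⟨y, _ | ⟨w, t⟩⟩⟩ <;> simp [base] at ht
  obtain ⟨hx, hy⟩ := ht
  rw [entry_pole.1 hx, entry_pole.1 hy]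
  rfl

/-- The value of a word. -/
noncomputable def val (w : Word) : ℂ := ev P w (fun t => if t = sb then 1 else 0) sb

lemma ev_eq_val {w : Word} (h : Typed base w base) (f : List St → ℂ) :
    ev P w f sb = val P w * f sb := by
  have h1 := ev_congr P h f (fun t => f sb * (if t = sb then 1 else 0)) (by
    intro t ht
    rw [eq_sb ht]
    simp) sb sb_entry
  rw [h1, ev_smul, val, mul_comm]

lemma val_append {A B : Word} (hA : Typed base A base) :
    val P (A ++ B) = val P A * val P B := by
  rw [val, ev_append, ev_eq_val P hA]
  rfl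

lemma val_nil : val P [] = 1 := by
  simp [val, ev_nil]

/-- The value as a homomorphism of monoids. -/
noncomputable def valHom : Diagram →* ℂ where
  toFun w := val P w.word
  map_one' := val_nil P
  map_mul' a _ := val_append P a.typed

/-- The evaluation of formal combinations. -/
noncomputable def preEval : MonoidAlgebra ℂ Diagram →ₐ[ℂ] ℂ :=
  MonoidAlgebra.lift ℂ ℂ Diagram (valHom P)

lemma preEval_elem {w : Word} (h : Typed base w base) : preEval P (elem w) = val P w := by
  rw [elem, dif_pos h, preEval, MonoidAlgebra.lift_of]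
  rfl

lemma typed_insert {o o' u v : List Entry} {A B X : Word} (hA : Typed base A (u ++ o ++ v))
    (hB : Typed (u ++ o' ++ v) B base) (hX : Typed o X o') :
    Typed base (A ++ shift u.length X ++ B) base :=
  (hA.append (hX.whisker u v)).append hB

lemma split_state {u o v : List Entry} {s : List St} (hs : s.map St.entry = u ++ o ++ v) :
    ∃ su t r : List St, s = su ++ (t ++ r) ∧ su.length = u.length ∧ t.map St.entry = o := by
  obtain ⟨s₁, sv, rfl, h1, hv⟩ := List.map_eq_append_iff.1 hs
  obtain ⟨su, st, rfl, hu, ht⟩ := List.map_eq_append_iff.1 h1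
  refine ⟨su, st, sv, by simp, ?_, ht⟩
  rw [← hu, List.length_map]

lemma ev_sum (R : List (ℂ × Word)) (w : Word) (F : ℂ × Word → List St → ℂ) (s : List St) :
    (R.map fun x => x.1 * ev P w (F x) s).sum =
      ev P w (fun t => (R.map fun x => x.1 * F x t).sum) s := by
  induction R with
  | nil => simp [ev_zero]
  | cons a R ih =>
    simp only [List.map_cons, List.sum_cons]
    rw [ih, ← ev_smul, ← ev_add]

lemma rel_eval ⦃x y : MonoidAlgebra ℂ Diagram⦄ (h : Rel P.z x y) :
    preEval P x = preEval P y := by
  cases h with
  | @isotopy o o' X Y h u v A B hA hB =>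
    obtain ⟨hX, hY⟩ := move_typed h
    rw [preEval_elem P (typed_insert hA hB hX), preEval_elem P (typed_insert hA hB hY)]
    rw [val, val, List.append_assoc, List.append_assoc, ev_append, ev_append]
    apply ev_congr P hA _ _ _ sb sb_entry
    intro s hs
    obtain ⟨su, t, r, rfl, hu, ht⟩ := split_state hs
    rw [ev_append, ev_append, ← hu, ev_shift, ev_shift]
    exact move_ev P h t ht _ r
  | @skein o o' R h u v A B hA hB =>
    rw [map_zero, map_list_sum, List.map_map]
    have e : ∀ x ∈ R, ((preEval P) ∘ fun x : ℂ × Word =>
        x.1 • elem (A ++ shift u.length x.2 ++ B)) x =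
        x.1 * ev P A (fun s => ev P (shift u.length x.2) (ev P B
          (fun t => if t = sb then 1 else 0)) s) sb := by
      intro x hx
      simp only [Function.comp]
      rw [map_smul, preEval_elem P (typed_insert hA hB (skein_typed h x hx)), smul_eq_mul, val,
        List.append_assoc, ev_append]
      congr 2
      funext s
      rw [ev_append]
    rw [List.map_congr_left e]
    rw [ev_sum P R A (fun x s => ev P (shift u.length x.2) (ev P B
          (fun t => if t = sb then 1 else 0)) s) sb]
    rw [ev_congr P hA _ (fun _ => 0) _ sb sb_entry, ev_zero]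
    intro s hs
    obtain ⟨su, t, r, rfl, hu, ht⟩ := split_state hs
    have e2 : ∀ x ∈ R, x.1 * ev P (shift u.length x.2) (ev P B
          (fun t => if t = sb then 1 else 0)) (su ++ (t ++ r)) =
        x.1 * ev P x.2 (fun s => ev P B (fun t => if t = sb then 1 else 0) (su ++ s)) (t ++ r) := by
      intro x _
      rw [← hu, ev_shift]
    rw [List.map_congr_left e2]
    exact skein_ev P h t ht _ r

/-- The evaluation of the skein algebra. -/
noncomputable def eval : SkeinAlgebra P.z →ₐ[ℂ] ℂ :=
  RingQuot.liftAlgHom ℂ ⟨preEval P, rel_eval P⟩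

lemma eval_cls {w : Word} (h : Typed base w base) : eval P (cls P.z w) = val P w := by
  rw [eval, cls, RingQuot.liftAlgHom_mkAlgHom_apply, preEval_elem P h]

end Pool.Agent.V7H46.SL3
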