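import Pool.Agent.V7H46.SL3.Defs

/-!
# The reduced power elementary polynomials for `n = 3`
-/

set_option autoImplicit false

namespace Pool.Agent.V7H46.SL3

open MvPolynomial

lemma exists_three_roots (a b : ℂ) : ∃ l : Fin 3 → ℂ, l 0 + l 1 + l 2 = a ∧
    l 0 * l 1 + l 0 * l 2 + l 1 * l 2 = b ∧ l 0 * l 1 * l 2 = 1 := by
  obtain ⟨x, hx⟩ : ∃ x : ℂ, x ^ 3 - a * x ^ 2 + b * x - 1 = 0 := by
    let p : Polynomial ℂ := Polynomial.X ^ 3 - Polynomial.C a * Polynomial.X ^ 2 +
      Polynomial.C b * Polynomial.X - Polynomial.C 1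
    have hd : p.degree ≠ 0 := by
      have : p.degree = 3 := by
        simp only [p]
        compute_degree!
      rw [this]
      norm_num
    obtain ⟨x, hx⟩ := IsAlgClosed.exists_root p hd
    refine ⟨x, ?_⟩
    simpa [p, Polynomial.IsRoot] using hx
  have hx0 : x ≠ 0 := by
    rintro rfl
    norm_num at hx
  obtain ⟨y, hy⟩ : ∃ y : ℂ, y ^ 2 - (a - x) * y + x⁻¹ = 0 := by
    let p : Polynomial ℂ := Polynomial.X ^ 2 - Polynomial.C (a - x) * Polynomial.X +
      Polynomial.C x⁻¹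
    have hd : p.degree ≠ 0 := by
      have : p.degree = 2 := by
        simp only [p]
        compute_degree!
      rw [this]
      norm_num
    obtain ⟨y, hy⟩ := IsAlgClosed.exists_root p hd
    refine ⟨y, ?_⟩
    simpa [p, Polynomial.IsRoot] using hy
  have h3 : y * (a - x - y) = x⁻¹ := by linear_combination -hy
  refine ⟨![x, y, a - x - y], ?_, ?_, ?_⟩
  · simp
  · simp only [Matrix.cons_val_zero, Matrix.cons_val_one, Matrix.cons_val]
    have h4 : x * y + x * (a - x - y) + y * (a - x - y) = x * (a - x) + x⁻¹ := by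
      rw [h3]
      ring
    rw [h4]
    field_simp
    linear_combination -hx
  · simp only [Matrix.cons_val_zero, Matrix.cons_val_one, Matrix.cons_val]
    rw [mul_assoc, h3, mul_inv_cancel₀ hx0]

lemma ps1 : (Finset.univ : Finset (Fin 3)).powersetCard 1 = {{0}, {1}, {2}} := by decide
lemma ps2 : (Finset.univ : Finset (Fin 3)).powersetCard 2 = {{0, 1}, {0, 2}, {1, 2}} := by decide
lemma ps3 : (Finset.univ : Finset (Fin 3)).powersetCard 3 = {{0, 1, 2}} := by decide

lemma aeval_e1 (l : Fin 3 → ℂ) : aeval l (esymm (Fin 3) ℤ 1) = l 0 + l 1 + l 2 := by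
  rw [esymm, ps1, Finset.sum_insert (by decide), Finset.sum_insert (by decide),
    Finset.sum_singleton]
  simp
  ring

lemma aeval_e2 (l : Fin 3 → ℂ) : aeval l (esymm (Fin 3) ℤ 2) =
    l 0 * l 1 + l 0 * l 2 + l 1 * l 2 := by
  rw [esymm, ps2, Finset.sum_insert (by decide), Finset.sum_insert (by decide),
    Finset.sum_singleton, Finset.prod_insert (by decide), Finset.prod_insert (by decide),
    Finset.prod_insert (by decide)]
  simp
  ring

lemma aeval_e3 (l : Fin 3 → ℂ) : aeval l (esymm (Fin 3) ℤ 3) = l 0 * l 1 * l 2 := by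
  rw [esymm, ps3, Finset.sum_singleton, Finset.prod_insert (by decide),
    Finset.prod_insert (by decide)]
  simp
  ring

lemma aeval_reduced (P : MvPolynomial (Fin 3) ℤ) (a b : ℂ) :
    aeval ![a, b] (reduced P) = aeval (![a, b, 1] : Fin 3 → ℂ) P := by
  rw [reduced]
  have h : (aeval ![a, b] : MvPolynomial (Fin 2) ℤ →ₐ[ℤ] ℂ).comp
      (aeval (![X 0, X 1, 1] : Fin 3 → MvPolynomial (Fin 2) ℤ)) = aeval (![a, b, 1] : Fin 3 → ℂ) := by
    apply MvPolynomial.algHom_ext
    intro i
    fin_cases i <;> simp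
  exact congrArg (fun f => f P) h

lemma value_of_power {i : ℕ} {P : MvPolynomial (Fin 3) ℤ} (h : IsPowerElementary 3 i P)
    (l : Fin 3 → ℂ) (hl : l 0 * l 1 * l 2 = 1) :
    aeval ![l 0 + l 1 + l 2, l 0 * l 1 + l 0 * l 2 + l 1 * l 2] (reduced P) =
      aeval (fun j => l j ^ 3) (esymm (Fin 3) ℤ i) := by
  rw [aeval_reduced]
  have h1 := congrArg (aeval l) h
  have h2 : (aeval l : MvPolynomial (Fin 3) ℤ →ₐ[ℤ] ℂ).comp
      (aeval fun j : Fin 3 => esymm (Fin 3) ℤ (j + 1)) =
      aeval (![l 0 + l 1 + l 2, l 0 * l 1 + l 0 * l 2 + l 1 * l 2, 1] : Fin 3 → ℂ) := by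
    apply MvPolynomial.algHom_ext
    intro j
    fin_cases j
    · simpa using aeval_e1 l
    · simpa using aeval_e2 l
    · simpa [hl] using aeval_e3 l
  have h3 : (aeval l : MvPolynomial (Fin 3) ℤ →ₐ[ℤ] ℂ).comp
      (aeval fun j : Fin 3 => (X j : MvPolynomial (Fin 3) ℤ) ^ 3) =
      aeval fun j => l j ^ 3 := by
    apply MvPolynomial.algHom_ext
    intro j
    simp
  have h4 : aeval l (aeval (fun j : Fin 3 => esymm (Fin 3) ℤ (j + 1)) P) =
      aeval (![l 0 + l 1 + l 2, l 0 * l 1 + l 0 * l 2 + l 1 * l 2, 1] : Fin 3 → ℂ) P :=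
    congrArg (fun f => f P) h2
  have h5 : aeval l (aeval (fun j : Fin 3 => (X j : MvPolynomial (Fin 3) ℤ) ^ 3)
      (esymm (Fin 3) ℤ i)) = aeval (fun j => l j ^ 3) (esymm (Fin 3) ℤ i) :=
    congrArg (fun f => f (esymm (Fin 3) ℤ i)) h3
  rw [← h4, h1, h5]

/-- the polynomial `e₁³ - 3 e₁ e₂ + 3` -/
noncomputable def E1 : MvPolynomial (Fin 2) ℤ :=
  monomial (Finsupp.single 0 3) 1 - monomial (Finsupp.single 0 1 + Finsupp.single 1 1) 3 +
    monomial 0 3

/-- the polynomial `e₂³ - 3 e₁ e₂ + 3` -/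
noncomputable def E2 : MvPolynomial (Fin 2) ℤ :=
  monomial (Finsupp.single 1 3) 1 - monomial (Finsupp.single 0 1 + Finsupp.single 1 1) 3 +
    monomial 0 3

lemma aeval_E1 (a b : ℂ) : aeval ![a, b] E1 = a ^ 3 - 3 * (a * b) + 3 := by
  simp [E1, aeval_monomial, Finsupp.prod_add_index', pow_add]

lemma aeval_E2 (a b : ℂ) : aeval ![a, b] E2 = b ^ 3 - 3 * (a * b) + 3 := by
  simp [E2, aeval_monomial, Finsupp.prod_add_index', pow_add]

lemma ext_aeval {Q R : MvPolynomial (Fin 2) ℤ}
    (h : ∀ a b : ℂ, aeval ![a, b] Q = aeval ![a, b] R) : Q = R := by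
  apply MvPolynomial.map_injective (Int.castRingHom ℂ) (RingHom.injective_int _)
  apply MvPolynomial.funext
  intro x
  rw [eval_map, eval_map]
  have hx : x = ![x 0, x 1] := by
    ext i
    fin_cases i <;> rfl
  have h1 := h (x 0) (x 1)
  rw [← hx] at h1
  exact h1

lemma reduced_one {P : MvPolynomial (Fin 3) ℤ} (h : IsPowerElementary 3 1 P) :
    reduced P = E1 := by
  apply ext_aeval
  intro a b
  obtain ⟨l, h1, h2, h3⟩ := exists_three_roots a b
  have h4 := value_of_power h l h3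
  rw [h1, h2, aeval_e1] at h4
  rw [h4, aeval_E1, ← h1, ← h2]
  linear_combination 3 * h3

lemma reduced_two {P : MvPolynomial (Fin 3) ℤ} (h : IsPowerElementary 3 2 P) :
    reduced P = E2 := by
  apply ext_aeval
  intro a b
  obtain ⟨l, h1, h2, h3⟩ := exists_three_roots a b
  have h4 := value_of_power h l h3
  rw [h1, h2, aeval_e2] at h4
  rw [h4, aeval_E2, ← h1, ← h2]
  linear_combination (3 * (l 0 * l 1 * l 2 + 1) -
    3 * (l 0 + l 1 + l 2) * (l 0 * l 1 + l 0 * l 2 + l 1 * l 2)) * h3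

/-- all monomials have total weight divisible by three -/
lemma support_mod {i : ℕ} (hi : i = 1 ∨ i = 2) {P : MvPolynomial (Fin 3) ℤ}
    (h : IsPowerElementary 3 i P) (m : Fin 2 →₀ ℕ) (hm : m ∈ (reduced P).support) :
    (3 : ℤ) ∣ (m 0 : ℤ) - m 1 := by
  rcases hi with rfl | rfl
  · rw [reduced_one h, mem_support_iff] at hm
    by_contra hc
    apply hm
    simp only [E1, coeff_add, coeff_sub, coeff_monomial]
    rw [if_neg, if_neg, if_neg]
    · simp
    · rintro rfl
      simp at hc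
    · rintro rfl
      simp at hc
    · rintro rfl
      simp at hc
  · rw [reduced_two h, mem_support_iff] at hm
    by_contra hc
    apply hm
    simp only [E2, coeff_add, coeff_sub, coeff_monomial]
    rw [if_neg, if_neg, if_neg]
    · simp
    · rintro rfl
      simp at hc
    · rintro rfl
      simp at hc
    · rintro rfl
      simp at hc

end Pool.Agent.V7H46.SL3
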