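import Pool.Agent.V7H46.SL3.Central

/-!
# The knot `eight` is central for `z⁶ = 1`
-/

set_option autoImplicit false
set_option linter.unusedSimpArgs false

namespace Pool.Agent.V7H46.SL3

open Entry Piece

variable {z : ℂ}

/-- A line may be moved through a piece. -/
lemma line_nat (hz : z ^ 6 = 1) (κ : Fin 2 → Bool) (s : Strand) (hs : s.weight = .one)
    (u v : List Entry) (p : Piece) (hp : p.Ok) :
    Eqv z 1 (edge s :: (u ++ p.bot ++ v)) (u ++ p.top ++ v ++ [edge s])
      ((u.length + 1, p) :: line κ s (u ++ p.top ++ v))
      (line κ s (u ++ p.bot ++ v) ++ [(u.length, p)]) := by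
  have tp : Typed p.bot [(0, p)] p.top := by
    have := Typed.cons [] [] p [] _ hp (Typed.nil _)
    simpa using this
  have h1 := ((interchange (z := z) (line_typed κ s u) tp []).symm1).right v
  have h2 := (local_nat hz κ s hs p hp).whisker u v
  have h3 := (interchange (z := z) tp (line_typed κ s v) []).left u
  simp only [shift_cons, shift_nil, shift_append, List.append_nil, List.append_assoc, zero_add,
    List.cons_append, List.nil_append, shift_shift, List.length_append, List.length_cons,
    List.length_nil, add_zero] at h1 h2 h3
  have t1 : Typed (u ++ (p.top ++ ([edge s] ++ v)))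
      (shift (u.length + p.top.length) (line κ s v)) (u ++ (p.top ++ (v ++ [edge s]))) := by
    have := (line_typed κ s v).left (u ++ p.top)
    simpa using this
  have t2 : Typed (u ++ (p.top ++ ([edge s] ++ v)))
      (shift (p.top.length + u.length) (line κ s v)) (u ++ (p.top ++ (v ++ [edge s]))) := by
    rw [add_comm]
    exact t1
  have t3 : Typed (u ++ edge s :: (p.top ++ v)) (shift u.length (line κ s p.top))
      (u ++ (p.top ++ ([edge s] ++ v))) := by
    have := (line_typed κ s p.top).whisker u v
    simpa using this
  have t4 : Typed (edge s :: (u ++ (p.bot ++ v))) (line κ s u)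
      (u ++ edge s :: (p.bot ++ v)) := by
    have := (line_typed κ s u).right (p.bot ++ v)
    simpa using this
  have t5 : Typed (u ++ edge s :: (p.bot ++ v)) (shift u.length (line κ s p.bot))
      (u ++ (p.bot ++ ([edge s] ++ v))) := by
    have := (line_typed κ s p.bot).whisker u v
    simpa using this
  have a1 := h1.comp1 (Eqv.refl (t3.append t2))
  have a2 := (Eqv.mid t4 h2 t2)
  have a3 := (Eqv.refl (z := z) (t4.append t5)).comp1 h3
  simp only [List.append_assoc, List.cons_append, List.nil_append] at a1 a2 a3
  have e1 : 1 + u.length = u.length + 1 := by omega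
  rw [e1] at a2
  have a4 := (a1.trans1 a2).trans1 a3
  simp only [line_append, List.append_assoc, List.length_append, shift_append, shift_shift,
    List.cons_append, List.nil_append]
  have e2 : p.top.length + u.length = u.length + p.top.length := by omega
  have e3 : p.bot.length + u.length = u.length + p.bot.length := by omega
  rw [e2, e3] at a4
  rw [e2, e3]
  exact a4

/-- The knot passing all lines to the right and back, with the sides `κ`, `κ'` for the poles. -/
def ring (κ κ' : Fin 2 → Bool) (s : Strand) (o : List Entry) : Word :=
  [(0, cup s)] ++ shift 1 (line κ s.bar o) ++ line κ' s o ++ [(o.length, cap s)]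

lemma ring_typed (κ κ' : Fin 2 → Bool) (s : Strand) (o : List Entry) :
    Typed o (ring κ κ' s o) o := by
  have t1 : Typed o [(0, cup s)] ([edge s, edge s.bar] ++ o) := by
    have := Typed.cons [] o (cup s) [] _ trivial (Typed.nil _)
    simpa [Piece.bot, Piece.top] using this
  have t2 := (line_typed κ s.bar o).left [edge s]
  have t3 := (line_typed κ' s o).right [edge s.bar]
  have t4 : Typed (o ++ [edge s, edge s.bar]) [(o.length, cap s)] o := by
    have := Typed.cons o [] (cap s) [] _ trivial (Typed.nil _)
    simpa [Piece.bot, Piece.top] using this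
  simp only [List.length_cons, List.length_nil, zero_add, List.cons_append, List.nil_append,
    List.append_assoc] at t1 t2 t3 t4
  exact ((t1.append t2).append t3).append t4

lemma ring_nat (hz : z ^ 6 = 1) (κ κ' : Fin 2 → Bool) (s : Strand) (hs : s.weight = .one)
    (u v : List Entry) (p : Piece) (hp : p.Ok) :
    Eqv z 1 (u ++ p.bot ++ v) (u ++ p.top ++ v)
      ([(u.length, p)] ++ ring κ κ' s (u ++ p.top ++ v))
      (ring κ κ' s (u ++ p.bot ++ v) ++ [(u.length, p)]) := by
  have tc : Typed [] [(0, cup s)] [edge s, edge s.bar] := by
    have := Typed.cons [] [] (cup s) [] _ trivial (Typed.nil _)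
    simpa [Piece.bot, Piece.top] using this
  have td : Typed [edge s, edge s.bar] [(0, cap s)] [] := by
    have := Typed.cons [] [] (cap s) [] _ trivial (Typed.nil _)
    simpa [Piece.bot, Piece.top] using this
  have tp : Typed (u ++ p.bot ++ v) [(u.length, p)] (u ++ p.top ++ v) :=
    Typed.cons u v p [] _ hp (Typed.nil _)
  have h1 := (interchange (z := z) tc tp []).symm1
  have h2 := (line_nat hz κ s.bar (by simpa [Strand.bar] using hs) u v p hp).left [edge s]
  have h3 := (line_nat hz κ' s hs u v p hp).right [edge s.bar]
  have h4 := interchange (z := z) tp td []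
  have t2 := (line_typed κ s.bar (u ++ p.top ++ v)).left [edge s]
  have t3 := (line_typed κ' s (u ++ p.top ++ v)).right [edge s.bar]
  have t4 := td.left (u ++ p.top ++ v)
  have t5 := tc.right (u ++ p.bot ++ v)
  have t6 := (line_typed κ s.bar (u ++ p.bot ++ v)).left [edge s]
  have t7 := (line_typed κ' s (u ++ p.bot ++ v)).right [edge s.bar]
  simp only [shift_cons, shift_nil, shift_append, List.append_nil, List.append_assoc, zero_add,
    List.cons_append, List.nil_append, List.length_append, List.length_cons,
    List.length_nil, add_zero] at h1 h2 h3 h4 t2 t3 t4 t5 t6 t7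
  have a1 := h1.comp1 (Eqv.refl (t2.append (t3.append t4)))
  have e1 : u.length + 1 + 1 = u.length + (1 + 1) := by omega
  rw [e1] at h2
  have a2 := Eqv.mid t5 h2 (t3.append t4)
  have a3 := Eqv.mid (t5.append t6) h3 t4
  have a4 := (Eqv.refl (z := z) (t5.append (t6.append t7))).comp1 h4
  simp only [List.append_assoc, List.cons_append, List.nil_append] at a1 a2 a3 a4
  have a5 := ((a1.trans1 a2).trans1 a3).trans1 a4
  simp only [ring, List.append_assoc, List.cons_append, List.nil_append, List.length_append]
  exact a5

lemma ring_commutes (hz : z ^ 6 = 1) (κ κ' : Fin 2 → Bool) (s : Strand) (hs : s.weight = .one)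
    {o o' : List Entry} {w : Word} (h : Typed o w o') :
    Eqv z 1 o o' (w ++ ring κ κ' s o') (ring κ κ' s o ++ w) := by
  induction h with
  | nil o =>
    simp only [List.nil_append, List.append_nil]
    exact Eqv.refl (ring_typed κ κ' s o)
  | cons u v p w o' hp hw ih =>
    have h1 := ring_nat hz κ κ' s hs u v p hp
    have tp : Typed (u ++ p.bot ++ v) [(u.length, p)] (u ++ p.top ++ v) :=
      Typed.cons u v p [] _ hp (Typed.nil _)
    have a1 := (Eqv.refl (z := z) tp).comp1 ih
    have a2 := h1.comp1 (Eqv.refl hw)
    simp only [List.append_assoc, List.cons_append, List.nil_append] at a1 a2 ⊢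
    exact a1.trans1 a2

lemma eight_eq : eight = ring ![true, false] ![false, true] lt base := rfl

lemma eight_typed : Typed base eight base := by
  rw [eight_eq]
  exact ring_typed _ _ _ _

lemma elem_mul {A B : Word} (hA : Typed base A base) (hB : Typed base B base) :
    elem (A ++ B) = elem A * elem B := by
  rw [elem, elem, elem, dif_pos hA, dif_pos hB, dif_pos (hA.append hB), ← map_mul]
  rfl

lemma cls_mul {A B : Word} (hA : Typed base A base) (hB : Typed base B base) :
    cls z (A ++ B) = cls z A * cls z B := by
  rw [cls, cls, cls, elem_mul hA hB, map_mul]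

/-- The knot `eight` commutes with all webs. -/
lemma eight_commutes (hz : z ^ 6 = 1) {w : Word} (hw : Typed base w base) :
    cls z w * cls z eight = cls z eight * cls z w := by
  have h := (ring_commutes hz ![true, false] ![false, true] lt rfl hw).2.2 [] [] [] []
    (Typed.nil _) (by simpa using Typed.nil base)
  rw [← eight_eq, one_smul] at h
  simp only [List.length_nil, shift_zero, List.append_nil, List.nil_append] at h
  rw [cls_mul hw eight_typed, cls_mul eight_typed hw] at h
  exact h

/-- The knot `eight` is central. -/
lemma eight_central (hz : z ^ 6 = 1) : cls z eight ∈ Subalgebra.center ℂ (SkeinAlgebra z) := by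
  rw [Subalgebra.mem_center_iff]
  intro b
  obtain ⟨x, rfl⟩ := RingQuot.mkAlgHom_surjective ℂ (Rel z) b
  induction x using MonoidAlgebra.induction_on with
  | of w =>
    have h := eight_commutes hz w.typed
    have e : cls z w.word = RingQuot.mkAlgHom ℂ (Rel z) (MonoidAlgebra.of ℂ Diagram w) := by
      rw [cls, elem, dif_pos w.typed]
    rw [e] at h
    exact h
  | add f g hf hg => rw [map_add, add_mul, mul_add, hf, hg]
  | smul r f hf => rw [map_smul, smul_mul_assoc, mul_smul_comm, hf]

end Pool.Agent.V7H46.SL3
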