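import Pool.Agent.V7H46.SL3.Hom
import Pool.Agent.V7H46.SL3.Poly
import Pool.Agent.V7H46.SL3.Ring

/-!
# The knot `eight` is not in the subalgebra
-/

set_option autoImplicit false
set_option linter.unusedSimpArgs false

namespace Pool.Agent.V7H46.SL3

open Entry Piece

/-- Both matrices are `diag(1, t, t²)`, `t = z⁴`. -/
noncomputable def par1 (z : ℂ) (hz : z ^ 6 = 1) : Par where
  z := z
  hz := hz
  x := fun _ a => (z ^ 4) ^ (a : ℕ)
  hx := fun _ => by
    simp only [Fin.val_zero, Fin.val_one, Fin.val_two]
    linear_combination (z ^ 6 + 1) * hz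

/-- The first matrix is `t diag(1, t, t²)`, the second `diag(1, t, t²)`. -/
noncomputable def par2 (z : ℂ) (hz : z ^ 6 = 1) : Par where
  z := z
  hz := hz
  x := fun j a => if j = 0 then z ^ 4 * (z ^ 4) ^ (a : ℕ) else (z ^ 4) ^ (a : ℕ)
  hx := fun j => by
    simp only [Fin.val_zero, Fin.val_one, Fin.val_two]
    split_ifs
    · linear_combination (z ^ 18 + z ^ 12 + z ^ 6 + 1) * hz
    · linear_combination (z ^ 6 + 1) * hz

/-- How often an edge passes behind the pole `p_0`. -/
def turns : Piece → ℤ
  | cross false (edge s) (pole j) => if j = 0 then s.sign else 0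
  | cross true (pole j) (edge s) => if j = 0 then -s.sign else 0
  | _ => 0

/-- How often the edges of a word pass behind the pole `p_0`. -/
def total (w : Word) : ℤ := (w.map fun x => turns x.2).sum

lemma total_cons (k : ℕ) (p : Piece) (w : Word) : total ((k, p) :: w) = turns p + total w := by
  simp [total]

lemma total_append (A B : Word) : total (A ++ B) = total A + total B := by
  simp [total]

lemma total_shift (k : ℕ) (w : Word) : total (shift k w) = total w := by
  simp [total, shift, Function.comp_def]

section

variable (z : ℂ) (hz : z ^ 6 = 1)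

include hz in
lemma z_ne0 : z ^ 4 ≠ 0 := by
  refine pow_ne_zero 4 ?_
  rintro rfl
  norm_num at hz

lemma wt_twist (b : Bool) (e f : Entry) (x y : St) (hx : x.entry = e) (hy : y.entry = f) :
    wt (par2 z hz) b x y = (z ^ 4) ^ turns (cross b e f) * wt (par1 z hz) b x y := by
  have h0 := z_ne0 z hz
  subst hx hy
  cases x with
  | pole j =>
    cases y with
    | pole i => cases b <;> simp [wt, St.entry, turns]
    | edge s a =>
      cases b
      · simp [wt, St.entry, turns]
      · by_cases hj : j = 0
        · simp only [wt, St.entry, turns, par1, par2, hj, if_true]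
          rw [mul_zpow]
        · simp [wt, St.entry, turns, par1, par2, hj]
  | edge s a =>
    cases y with
    | pole j =>
      cases b
      · by_cases hj : j = 0
        · simp only [wt, St.entry, turns, par1, par2, hj, if_true, Bool.false_eq_true, if_false]
          rw [mul_zpow]
        · simp [wt, St.entry, turns, par1, par2, hj]
      · simp [wt, St.entry, turns]
    | edge t c => cases b <;> simp [wt, St.entry, turns, par1, par2, Par.t]

lemma sum_out (p : Piece) (st : List St) (hst : st.map St.entry = p.bot) (F : List St → ℂ) :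
    ((out (par2 z hz) p st).map fun x => x.1 * F x.2).sum =
      (z ^ 4) ^ turns p * ((out (par1 z hz) p st).map fun x => x.1 * F x.2).sum := by
  cases p with
  | cross b e f =>
    rcases st with _ | ⟨x, _ | ⟨y, _ | ⟨w, st⟩⟩⟩ <;> simp [Piece.bot] at hst
    obtain ⟨hx, hy⟩ := hst
    simp only [out, List.map_cons, List.map_nil, List.sum_cons, List.sum_nil, add_zero]
    rw [wt_twist z hz b e f x y hx hy]
    ring
  | cup s =>
    obtain rfl : st = [] := by simpa [Piece.bot] using hst
    simp [out, turns]
  | source12 =>
    obtain rfl : st = [] := by simpa [Piece.bot] using hst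
    simp [out, turns]
  | source21 =>
    obtain rfl : st = [] := by simpa [Piece.bot] using hst
    simp [out, turns]
  | split =>
    rcases st with _ | ⟨x, _ | ⟨y, st⟩⟩ <;> simp [Piece.bot] at hst
    cases x <;> simp [out, turns, par1, par2, Par.g]
  | cap s =>
    rcases st with _ | ⟨x, _ | ⟨y, _ | ⟨w, st⟩⟩⟩ <;> simp [Piece.bot] at hst
    cases x <;> cases y <;> simp [out, turns]
  | merge =>
    rcases st with _ | ⟨x, _ | ⟨y, _ | ⟨w, st⟩⟩⟩ <;> simp [Piece.bot] at hst
    cases x <;> cases y <;> simp [out, turns]
  | sink12 =>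
    rcases st with _ | ⟨x, _ | ⟨y, _ | ⟨w, st⟩⟩⟩ <;> simp [Piece.bot] at hst
    cases x <;> cases y <;> simp [out, turns]
  | sink21 =>
    rcases st with _ | ⟨x, _ | ⟨y, _ | ⟨w, st⟩⟩⟩ <;> simp [Piece.bot] at hst
    cases x <;> cases y <;> simp [out, turns]

lemma ev_twist {o o' : List Entry} {w : Word} (h : Typed o w o') (f : List St → ℂ)
    (s : List St) (hs : s.map St.entry = o) :
    ev (par2 z hz) w f s = (z ^ 4) ^ total w * ev (par1 z hz) w f s := by
  have h0 := z_ne0 z hz
  induction h generalizing s with
  | nil o => simp [ev_nil, total]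
  | cons u v p w o' hp _ ih =>
    obtain ⟨s₁, sv, rfl, h1, hv⟩ := List.map_eq_append_iff.1 hs
    obtain ⟨su, st, rfl, hu, ht⟩ := List.map_eq_append_iff.1 h1
    have lu : u.length = su.length := by rw [← hu, List.length_map]
    rw [lu, ev_piece _ _ _ _ _ _ _ (len_of_map ht), ev_piece _ _ _ _ _ _ _ (len_of_map ht)]
    have e1 : ((out (par2 z hz) p st).map fun x => x.1 * ev (par2 z hz) w f (su ++ x.2 ++ sv)) =
        (out (par2 z hz) p st).map fun x => x.1 * ((z ^ 4) ^ total w *
          ev (par1 z hz) w f (su ++ x.2 ++ sv)) := by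
      apply List.map_congr_left
      intro x hx
      rw [ih _ (by rw [List.map_append, List.map_append, hu, hv, out_type _ p st ht x hx])]
    rw [e1, sum_out z hz p st ht (fun t => (z ^ 4) ^ total w * ev (par1 z hz) w f (su ++ t ++ sv)),
      total_cons, zpow_add₀ h0, mul_assoc]
    congr 1
    rw [← List.sum_map_mul_left]
    congr 1
    apply List.map_congr_left
    intro x _
    ring

lemma val_twist {w : Word} (h : Typed base w base) :
    val (par2 z hz) w = (z ^ 4) ^ total w * val (par1 z hz) w :=
  ev_twist z hz h _ sb sb_entry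

lemma eval_cls' (P : Par) (w : Word) (h : ¬ Typed base w base) : cls P.z w = 0 := by
  rw [cls, elem, dif_neg h, map_zero]

lemma eval_twist (w : Word) :
    eval (par2 z hz) (cls z w) = (z ^ 4) ^ total w * eval (par1 z hz) (cls z w) := by
  by_cases h : Typed base w base
  · have e1 : eval (par2 z hz) (cls z w) = val (par2 z hz) w := eval_cls (par2 z hz) h
    have e2 : eval (par1 z hz) (cls z w) = val (par1 z hz) w := eval_cls (par1 z hz) h
    rw [e1, e2, val_twist z hz h]
  · have e0 : cls z w = 0 := eval_cls' (par1 z hz) w h
    rw [e0]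
    have e1 : eval (par2 z hz) 0 = 0 := map_zero _
    have e2 : eval (par1 z hz) 0 = 0 := map_zero _
    erw [e1, e2, mul_zero]

end

/-! ### Cables -/

/-- `1` for weight `1` and `-1` for weight `2`. -/
def Weight.sg : Weight → ℤ
  | .one => 1
  | .two => -1

/-- The turns of a piece around `p_0`, if all weights are replaced by `1`. -/
def turns1 : Piece → ℤ
  | cross false (edge s) (pole j) => if j = 0 then (if s.up then 1 else -1) else 0
  | cross true (pole j) (edge s) => if j = 0 then (if s.up then -1 else 1) else 0
  | _ => 0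

lemma sign_mk (a : Weight) (u : Bool) :
    (⟨a, u⟩ : Strand).sign = a.sg * (if u then 1 else -1) := by
  cases a <;> cases u <;> rfl

lemma total_cups (l : List Strand) : total (cups l) = 0 := by
  induction l with
  | nil => rfl
  | cons s l ih => rw [cups, total_cons, total_shift, ih]; rfl

lemma total_caps (l : List Strand) : total (caps l) = 0 := by
  induction l with
  | nil => rfl
  | cons s l ih => rw [caps, total_append, total_shift, ih]; rfl

lemma total_passOne (b : Bool) (e : Entry) (r : List Entry) :
    total (passOne b e r) = (r.map fun f => turns (cross b e f)).sum := by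
  induction r with
  | nil => rfl
  | cons f r ih => rw [passOne, total_cons, total_shift, ih]; rfl

lemma total_passAll (b : Bool) (o r : List Entry) :
    total (passAll b o r) = (o.map fun e => (r.map fun f => turns (cross b e f)).sum).sum := by
  induction o with
  | nil => rfl
  | cons e o ih =>
    rw [passAll, total_append, total_shift, ih, total_passOne]
    simp [add_comm]

lemma sum_zero_of {α : Type} (l : List α) (f : α → ℤ) (h : ∀ x ∈ l, f x = 0) :
    (l.map f).sum = 0 := by
  induction l with
  | nil => rfl
  | cons a l ih =>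
    rw [List.map_cons, List.sum_cons, h a (by simp), ih (fun x hx => h x (by simp [hx]))]
    rfl

lemma copies_edge (c : List Weight) (s : Strand) :
    ∃ l : List Weight, l.Perm c ∧ copies c (edge s) = l.map fun a => edge ⟨a, s.up⟩ := by
  rcases s with ⟨w, u⟩
  cases u
  · exact ⟨c.reverse, List.reverse_perm c, by simp [copies]⟩
  · exact ⟨c, List.Perm.refl c, rfl⟩

lemma total_cablePiece (c : List Weight) (p : Piece) :
    total (cablePiece c p) = (c.map Weight.sg).sum * turns1 p := by
  cases p with
  | cup s => simp [cablePiece, total_cups, turns1]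
  | cap s => simp [cablePiece, total_caps, turns1]
  | merge => simp [cablePiece, total, turns1]
  | split => simp [cablePiece, total, turns1]
  | sink12 => simp [cablePiece, total, turns1]
  | sink21 => simp [cablePiece, total, turns1]
  | source12 => simp [cablePiece, total, turns1]
  | source21 => simp [cablePiece, total, turns1]
  | cross b e f =>
    rw [cablePiece, total_passAll]
    cases e with
    | pole j =>
      cases f with
      | pole i => cases b <;> simp [copies, turns, turns1]
      | edge s =>
        obtain ⟨l, hl, he⟩ := copies_edge c s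
        rw [he]
        have h2 : (l.map Weight.sg).sum = (c.map Weight.sg).sum := (hl.map _).sum_eq
        cases b
        · rw [show turns1 (cross false (pole j) (edge s)) = 0 from rfl, mul_zero]
          apply sum_zero_of
          intro x hx
          apply sum_zero_of
          intro y hy
          obtain rfl : x = pole j := by simpa [copies] using hx
          obtain ⟨a', _, rfl⟩ := List.mem_map.1 hy
          rfl
        · by_cases hj : j = 0
          · rw [← h2]
            simp only [copies, List.map_cons, List.map_nil, List.sum_cons, List.sum_nil,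
              add_zero, List.map_map, Function.comp_def, turns, turns1, hj, if_true, sign_mk]
            rw [← List.sum_map_mul_right]
            congr 1
            apply List.map_congr_left
            intro a _
            cases s.up <;> simp
          · rw [show turns1 (cross true (pole j) (edge s)) = 0 by simp [turns1, hj], mul_zero]
            apply sum_zero_of
            intro x hx
            apply sum_zero_of
            intro y hy
            obtain rfl : x = pole j := by simpa [copies] using hx
            obtain ⟨a', _, rfl⟩ := List.mem_map.1 hy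
            simp [turns, hj]
    | edge s =>
      obtain ⟨l, hl, he⟩ := copies_edge c s
      rw [he]
      have h2 : (l.map Weight.sg).sum = (c.map Weight.sg).sum := (hl.map _).sum_eq
      cases f with
      | edge t =>
        obtain ⟨l', hl', he'⟩ := copies_edge c t
        rw [he']
        have e1 : turns1 (cross b (edge s) (edge t)) = 0 := by cases b <;> rfl
        rw [e1, mul_zero]
        apply sum_zero_of
        intro x hx
        apply sum_zero_of
        intro y hy
        obtain ⟨a, _, rfl⟩ := List.mem_map.1 hx
        obtain ⟨a', _, rfl⟩ := List.mem_map.1 hy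
        cases b <;> rfl
      | pole j =>
        cases b
        · by_cases hj : j = 0
          · rw [← h2]
            simp only [copies, List.map_cons, List.map_nil, List.sum_cons, List.sum_nil,
              add_zero, List.map_map, Function.comp_def, turns, turns1, hj, if_true, sign_mk]
            rw [← List.sum_map_mul_right]
          · rw [show turns1 (cross false (edge s) (pole j)) = 0 by simp [turns1, hj], mul_zero]
            apply sum_zero_of
            intro x hx
            apply sum_zero_of
            intro y hy
            obtain rfl : y = pole j := by simpa [copies] using hy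
            obtain ⟨a, _, rfl⟩ := List.mem_map.1 hx
            simp [turns, hj]
        · rw [show turns1 (cross true (edge s) (pole j)) = 0 from rfl, mul_zero]
          apply sum_zero_of
          intro x hx
          apply sum_zero_of
          intro y hy
          obtain rfl : y = pole j := by simpa [copies] using hy
          obtain ⟨a, _, rfl⟩ := List.mem_map.1 hx
          rfl

lemma total_cable (c : List Weight) (o : List Entry) (w : Word) :
    ∃ n : ℤ, total (cable c o w) = (c.map Weight.sg).sum * n := by
  induction w generalizing o with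
  | nil => exact ⟨0, by simp [cable, total]⟩
  | cons x w ih =>
    obtain ⟨k, p⟩ := x
    obtain ⟨n, hn⟩ := ih (o.take k ++ p.top ++ o.drop (k + p.bot.length))
    refine ⟨turns1 p + n, ?_⟩
    rw [cable, total_append, total_shift, total_cablePiece, hn]
    ring

lemma eval_thread (z : ℂ) (hz : z ^ 6 = 1) (L : Word) {i : ℕ} (hi : i = 1 ∨ i = 2)
    {P : MvPolynomial (Fin 3) ℤ} (hP : IsPowerElementary 3 i P) :
    eval (par2 z hz) (thread z L (reduced P)) = eval (par1 z hz) (thread z L (reduced P)) := by
  have h2 : eval (par2 z hz) (thread z L (reduced P)) = ∑ m ∈ (reduced P).support,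
      (((reduced P).coeff m : ℤ) : ℂ) * eval (par2 z hz) (cls z (cable
        (List.replicate (m 0) .one ++ List.replicate (m 1) .two) base L)) := by
    have := map_sum (eval (par2 z hz)) (fun m => (((reduced P).coeff m : ℤ) : ℂ) • cls z (cable
        (List.replicate (m 0) .one ++ List.replicate (m 1) .two) base L)) (reduced P).support
    refine Eq.trans this (Finset.sum_congr rfl fun m _ => ?_)
    exact map_smul (eval (par2 z hz)) _ _
  have h1 : eval (par1 z hz) (thread z L (reduced P)) = ∑ m ∈ (reduced P).support,
      (((reduced P).coeff m : ℤ) : ℂ) * eval (par1 z hz) (cls z (cable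
        (List.replicate (m 0) .one ++ List.replicate (m 1) .two) base L)) := by
    have := map_sum (eval (par1 z hz)) (fun m => (((reduced P).coeff m : ℤ) : ℂ) • cls z (cable
        (List.replicate (m 0) .one ++ List.replicate (m 1) .two) base L)) (reduced P).support
    refine Eq.trans this (Finset.sum_congr rfl fun m _ => ?_)
    exact map_smul (eval (par1 z hz)) _ _
  rw [h1, h2]
  apply Finset.sum_congr rfl
  intro m hm
  congr 1
  rw [eval_twist]
  obtain ⟨n, hn⟩ := total_cable (List.replicate (m 0) .one ++ List.replicate (m 1) .two) base L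
  obtain ⟨k, hk⟩ := support_mod hi hP m hm
  have e : ((List.replicate (m 0) Weight.one ++ List.replicate (m 1) Weight.two).map
      Weight.sg).sum = 3 * k := by
    rw [← hk]
    simp [Weight.sg]
    ring
  rw [hn, e, mul_assoc, zpow_mul]
  have h3 : (z ^ 4) ^ (3 : ℤ) = 1 := by
    have : (z ^ 4) ^ (3 : ℕ) = 1 := by linear_combination (z ^ 6 + 1) * hz
    exact_mod_cast this
  rw [h3, one_zpow, one_mul]

/-! ### Values of the puncture skeins and of the knot -/

lemma loop0_typed (s : Strand) : Typed base (loop0 s) base :=
  typed_iff_run.2 (by simp [Run, loop0, base, Piece.bot, Piece.top, Piece.Ok])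

lemma loop1_typed (s : Strand) : Typed base (loop1 s) base :=
  typed_iff_run.2 (by simp [Run, loop1, base, Piece.bot, Piece.top, Piece.Ok])

lemma loopInfinity_typed (s : Strand) : Typed base (loopInfinity s) base :=
  typed_iff_run.2 (by simp [Run, loopInfinity, base, Piece.bot, Piece.top, Piece.Ok])

lemma sum_roots (t : ℂ) (ht : t ^ 3 = 1) (ht1 : t ≠ 1) (n : ℤ) (hn : n = 1 ∨ n = -1) :
    ((t : ℂ) ^ (0 : ℕ)) ^ n + ((t ^ (1 : ℕ)) ^ n + (t ^ (2 : ℕ)) ^ n) = 0 := by
  have h0 : t ≠ 0 := by
    rintro rfl
    norm_num at ht
  have h1 : t ^ 2 + t + 1 = 0 := by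
    have : (t - 1) * (t ^ 2 + t + 1) = 0 := by linear_combination ht
    rcases mul_eq_zero.1 this with h | h
    · exact absurd (sub_eq_zero.1 h) ht1
    · exact h
  rcases hn with rfl | rfl
  · simp
    linear_combination h1
  · simp
    field_simp
    linear_combination h1

lemma sign_cases (s : Strand) : s.sign = 1 ∨ s.sign = -1 := by
  rcases s with ⟨w, u⟩
  cases w <;> cases u <;> simp [Strand.sign]

lemma val_loop (P : Par) (s : Strand) :
    val P (loop0 s) = P.x 0 0 ^ s.sign + (P.x 0 1 ^ s.sign + P.x 0 2 ^ s.sign) := by
  simp only [val, loop0, ev_cons, ev_nil, out, Piece.bot, List.drop_zero, List.drop_succ_cons,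
      List.take_succ_cons, List.take_zero, List.length_cons, List.length_nil, List.cons_append,
      List.nil_append, List.map_cons, List.map_nil, List.sum_cons, List.sum_nil, zero_add,
      add_zero, Nat.reduceAdd, sb, Fin.isValue, Fin.reduceEq, Fin.reduceAdd, ↓reduceIte, wt,
      one_mul, mul_one, Bool.false_eq_true]

lemma val_loop1 (P : Par) (s : Strand) :
    val P (loop1 s) = P.x 1 0 ^ s.sign + (P.x 1 1 ^ s.sign + P.x 1 2 ^ s.sign) := by
  simp only [val, loop1, ev_cons, ev_nil, out, Piece.bot, List.drop_zero, List.drop_succ_cons,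
      List.take_succ_cons, List.take_zero, List.length_cons, List.length_nil, List.cons_append,
      List.nil_append, List.map_cons, List.map_nil, List.sum_cons, List.sum_nil, zero_add,
      add_zero, Nat.reduceAdd, sb, Fin.isValue, Fin.reduceEq, Fin.reduceAdd, ↓reduceIte, wt,
      one_mul, mul_one, Bool.false_eq_true]

lemma val_loopInfinity (P : Par) (s : Strand) :
    val P (loopInfinity s) = P.x 0 0 ^ s.sign * P.x 1 0 ^ s.sign +
      (P.x 0 1 ^ s.sign * P.x 1 1 ^ s.sign + P.x 0 2 ^ s.sign * P.x 1 2 ^ s.sign) := by
  simp only [val, loopInfinity, ev_cons, ev_nil, out, Piece.bot, List.drop_zero,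
      List.drop_succ_cons,
      List.take_succ_cons, List.take_zero, List.length_cons, List.length_nil, List.cons_append,
      List.nil_append, List.map_cons, List.map_nil, List.sum_cons, List.sum_nil, zero_add,
      add_zero, Nat.reduceAdd, sb, Fin.isValue, Fin.reduceEq, Fin.reduceAdd, ↓reduceIte, wt,
      one_mul, mul_one, Bool.false_eq_true]

lemma val_eight (P : Par) :
    val P eight = P.x 1 0 ^ (-1 : ℤ) * P.x 0 0 + (P.x 1 1 ^ (-1 : ℤ) * P.x 0 1 +
      P.x 1 2 ^ (-1 : ℤ) * P.x 0 2) := by
  have h1 : lt.bar.sign = -1 := rfl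
  have h2 : lt.sign = 1 := rfl
  simp only [val, eight, ev_cons, ev_nil, out, Piece.bot, List.drop_zero,
      List.drop_succ_cons,
      List.take_succ_cons, List.take_zero, List.length_cons, List.length_nil, List.cons_append,
      List.nil_append, List.map_cons, List.map_nil, List.sum_cons, List.sum_nil, zero_add,
      add_zero, Nat.reduceAdd, sb, Fin.isValue, Fin.reduceEq, Fin.reduceAdd, ↓reduceIte, wt,
      one_mul, mul_one, Bool.false_eq_true, h1, h2, zpow_one]

lemma val_puncture (z : ℂ) (hz : z ^ 6 = 1) (hz1 : z ^ 4 ≠ 1) (s : Strand) :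
    val (par1 z hz) (loop0 s) = 0 ∧ val (par1 z hz) (loop1 s) = 0 ∧
      val (par1 z hz) (loopInfinity s) = 0 := by
  have h3 : (z ^ 4) ^ 3 = 1 := by linear_combination (z ^ 6 + 1) * hz
  have h := sum_roots (z ^ 4) h3 hz1 s.sign (sign_cases s)
  have hs := sum_roots ((z ^ 4) ^ 2) (by rw [← pow_mul, mul_comm, pow_mul, h3, one_pow]) (by
    intro h2
    apply hz1
    calc z ^ 4 = (z ^ 4) ^ 3 * z ^ 4 := by rw [h3, one_mul]
      _ = ((z ^ 4) ^ 2) ^ 2 := by ring
      _ = 1 := by rw [h2, one_pow]) s.sign (sign_cases s)
  refine ⟨?_, ?_, ?_⟩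
  · rw [val_loop]
    exact h
  · rw [val_loop1]
    exact h
  · rw [val_loopInfinity]
    simp only [par1, ← mul_zpow]
    have e0 : (z ^ 4) ^ ((0 : Fin 3) : ℕ) * (z ^ 4) ^ ((0 : Fin 3) : ℕ) =
        ((z ^ 4) ^ 2) ^ (0 : ℕ) := by simp
    have e1 : (z ^ 4) ^ ((1 : Fin 3) : ℕ) * (z ^ 4) ^ ((1 : Fin 3) : ℕ) =
        ((z ^ 4) ^ 2) ^ (1 : ℕ) := by
      simp only [Fin.val_one]
      ring
    have e2 : (z ^ 4) ^ ((2 : Fin 3) : ℕ) * (z ^ 4) ^ ((2 : Fin 3) : ℕ) =
        ((z ^ 4) ^ 2) ^ (2 : ℕ) := by
      simp only [Fin.val_two]
      ring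
    rw [e0, e1, e2]
    exact hs

lemma eval_puncture (z : ℂ) (hz : z ^ 6 = 1) (hz1 : z ^ 4 ≠ 1) {x : SkeinAlgebra z}
    (hx : x ∈ punctureSkeins z) : eval (par2 z hz) x = eval (par1 z hz) x := by
  obtain ⟨s, hs⟩ := hx
  obtain ⟨h0, h1, h2⟩ := val_puncture z hz hz1 s
  rcases hs with rfl | rfl | rfl
  · have e1 : eval (par1 z hz) (cls z (loop0 s)) = val (par1 z hz) (loop0 s) :=
      eval_cls (par1 z hz) (loop0_typed s)
    rw [eval_twist, e1, h0, mul_zero]
  · have e1 : eval (par1 z hz) (cls z (loop1 s)) = val (par1 z hz) (loop1 s) :=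
      eval_cls (par1 z hz) (loop1_typed s)
    rw [eval_twist, e1, h1, mul_zero]
  · have e1 : eval (par1 z hz) (cls z (loopInfinity s)) = val (par1 z hz) (loopInfinity s) :=
      eval_cls (par1 z hz) (loopInfinity_typed s)
    rw [eval_twist, e1, h2, mul_zero]

lemma eval_eight (z : ℂ) (hz : z ^ 6 = 1) :
    eval (par1 z hz) (cls z eight) = 3 ∧ eval (par2 z hz) (cls z eight) = 3 * z ^ 4 := by
  have h0 := z_ne0 z hz
  have e1 : eval (par1 z hz) (cls z eight) = val (par1 z hz) eight :=
    eval_cls (par1 z hz) eight_typed
  have e2 : eval (par2 z hz) (cls z eight) = val (par2 z hz) eight :=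
    eval_cls (par2 z hz) eight_typed
  rw [e1, e2, val_eight, val_eight]
  have h1 : z ≠ 0 := by
    rintro rfl
    norm_num at hz
  constructor
  · simp [par1, h1]
    norm_num
  · simp [par2, h1]
    field_simp
    ring

/-- The knot `eight` is not in the subalgebra generated by the puncture skeins and the threaded
skeins. -/
lemma eight_not_mem (z : ℂ) (hz : z ^ 6 = 1) (hz1 : z ^ 4 ≠ 1) :
    cls z eight ∉ Algebra.adjoin ℂ (punctureSkeins z ∪ threadedSkeins z 3) := by
  intro h
  have h1 : Algebra.adjoin ℂ (punctureSkeins z ∪ threadedSkeins z 3) ≤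
      AlgHom.equalizer (eval (par2 z hz)) (eval (par1 z hz)) := by
    apply Algebra.adjoin_le
    rintro x (hx | ⟨L, i, P, -, hi, hP, rfl⟩)
    · exact eval_puncture z hz hz1 hx
    · exact eval_thread z hz L hi hP
  have h2 : eval (par2 z hz) (cls z eight) = eval (par1 z hz) (cls z eight) := h1 h
  obtain ⟨e1, e2⟩ := eval_eight z hz
  rw [e1, e2] at h2
  apply hz1
  linear_combination h2 / 3

end Pool.Agent.V7H46.SL3
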